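import Pool.Agent.Lib.H80Q.F1

/-!
# H80Q, file Z1: the list form
-/

set_option autoImplicit false

namespace H80Q

open Finset

private theorem cnt_cons2 {V : Type*} {A : V → V → Prop} [DecidableRel A] (a b : V) (l : List V) :
    (((a :: b :: l).zip (a :: b :: l).tail).filter (fun p => A p.1 p.2)).length =
      (if A a b then 1 else 0) + (((b :: l).zip (b :: l).tail).filter (fun p => A p.1 p.2)).length := by
  simp only [List.tail_cons, List.zip_cons_cons, List.filter_cons]
  by_cases h : A a b
  · simp [h, Nat.add_comm]
  · simp [h]

private theorem cnt_cons {V : Type*} {A : V → V → Prop} [DecidableRel A] (a : V) (l : List V) :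
    ((l.zip l.tail).filter (fun p => A p.1 p.2)).length ≤
      (((a :: l).zip (a :: l).tail).filter (fun p => A p.1 p.2)).length := by
  cases l with
  | nil => simp
  | cons b l =>
    rw [cnt_cons2]
    exact Nat.le_add_left _ _

private theorem cnt_append {V : Type*} {A : V → V → Prop} [DecidableRel A] (P R : List V) :
    ((P.zip P.tail).filter (fun p => A p.1 p.2)).length + ((R.zip R.tail).filter (fun p => A p.1 p.2)).length ≤
      (((P ++ R).zip (P ++ R).tail).filter (fun p => A p.1 p.2)).length := by
  induction P with
  | nil => simp
  | cons a P ih =>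
    cases P with
    | nil =>
      have := cnt_cons (A := A) a R
      simpa using this
    | cons b P =>
      rw [List.cons_append, List.cons_append, cnt_cons2, cnt_cons2]
      rw [List.cons_append] at ih
      omega

private theorem cnt_chain {V : Type*} {A : V → V → Prop} [DecidableRel A] (P : List V) (hP : P.IsChain A) :
    P.length ≤ ((P.zip P.tail).filter (fun p => A p.1 p.2)).length + 1 := by
  induction P with
  | nil => simp
  | cons a P ih =>
    cases P with
    | nil => simp
    | cons b P =>
      rw [List.isChain_cons_cons] at hP
      have h1 := ih hP.2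
      rw [cnt_cons2, if_pos hP.1]
      simp only [List.length_cons] at h1 ⊢
      omega

private theorem cnt_flatten {V : Type*} {A : V → V → Prop} [DecidableRel A] (ls : List (List V))
    (h : ∀ l ∈ ls, l.IsChain A) :
    ls.flatten.length ≤ ((ls.flatten.zip ls.flatten.tail).filter (fun p => A p.1 p.2)).length + ls.length := by
  induction ls with
  | nil => simp
  | cons P ls ih =>
    have h1 := ih (fun l hl => h l (List.mem_cons_of_mem _ hl))
    have h2 := cnt_chain P (h P List.mem_cons_self)
    have h3 := cnt_append (A := A) P ls.flatten
    rw [List.flatten_cons, List.length_append, List.length_cons]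
    omega

private theorem vs_coe {V : Type*} (ls : List (List V)) :
    vs (Multiset.ofList ls) = Multiset.ofList ls.flatten := by
  have h0 : ∀ L : Multiset (List V), vs L = (L.map (fun l => Multiset.ofList l)).sum := by
    intro L
    unfold vs
    simp only [Multiset.map_id', Multiset.bind_def, Multiset.pure_def, Multiset.bind_singleton]
  rw [h0]
  induction ls with
  | nil => simp
  | cons P ls ih =>
    rw [← Multiset.cons_coe, Multiset.map_cons, Multiset.sum_cons, ih, List.flatten_cons, Multiset.coe_add]

/-- A path cover with `k` paths gives an order of the vertices with at least `n - k` consecutive adjacent pairs. -/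
theorem glue {V : Type*} [Fintype V] [DecidableEq V] {A : V → V → Prop} [DecidableRel A] {L : Multiset (List V)}
    (h : Pth A L) (hv : vs L = (univ : Finset V).val) :
    ∃ l : List V, l.Nodup ∧ (∀ v, v ∈ l) ∧
      Fintype.card V ≤ ((l.zip l.tail).filter (fun p => A p.1 p.2)).length + L.card := by
  obtain ⟨ls, rfl⟩ := Quot.exists_rep L
  have h0 : (Quot.mk _ ls : Multiset (List V)) = Multiset.ofList ls := rfl
  rw [h0] at h hv ⊢
  rw [vs_coe] at hv
  refine ⟨ls.flatten, ?_, ?_, ?_⟩
  · rw [← Multiset.coe_nodup, hv]
    exact Finset.nodup _
  · intro v
    rw [← Multiset.mem_coe, hv]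
    exact Finset.mem_univ v
  · have h1 := cnt_flatten (A := A) ls (fun l hl => (h l (Multiset.mem_coe.2 hl)).2)
    have h2 : Fintype.card V = ls.flatten.length := by
      rw [← Multiset.coe_card, hv]
      rfl
    rw [h2, Multiset.coe_card]
    exact h1

end H80Q
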