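import Pool.Agent.Lib.H80Q.D

/-!
# H80Q, file R1: the weight count along one path
-/

set_option autoImplicit false

namespace H80Q

open Finset

private theorem real_list_aux {V : Type*} (al be r : V → ℝ) : ∀ (t : List V) (x : V)
    (_ : ∀ v ∈ x :: t, 0 ≤ al v ∧ al v ≤ 1 ∧ 0 ≤ be v ∧ be v ≤ 1 ∧ 0 ≤ r v ∧
      al v + be v + r v ≤ 2)
    (_ : (x :: t).IsChain (fun x x' => (0 < al x' → be x = 0 ∧ r x = 0) ∧ (0 < r x' → be x = 0) ∧
      (0 < r x → 0 < r x' → r x + r x' ≤ 1))),
    ((x :: t).map (fun x => al x + be x + r x)).sum ≤ min 1 (al x + r x) + ((x :: t).length : ℝ) := by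
  intro t
  induction t with
  | nil =>
    intro x h1 _
    obtain ⟨h0, h1a, h2, h3, h4, h5⟩ := h1 x (by simp)
    simp only [List.map_cons, List.map_nil, List.sum_cons, List.sum_nil, List.length_cons,
      List.length_nil, Nat.cast_add, Nat.cast_zero, Nat.cast_one]
    rcases min_cases (1 : ℝ) (al x + r x) with ⟨he, hl⟩ | ⟨he, hl⟩ <;> rw [he] <;> linarith
  | cons x' t ih =>
    intro x h1 h2
    have hx := h1 x (by simp)
    have hx' := h1 x' (by simp)
    rw [List.isChain_cons_cons] at h2
    obtain ⟨⟨ha, hb, hc⟩, h2'⟩ := h2
    have hi := ih x' (fun v hv => h1 v (List.mem_cons_of_mem _ hv)) h2'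
    have key : al x + be x + r x + min 1 (al x' + r x') ≤ min 1 (al x + r x) + 1 := by
      obtain ⟨q0, q1, q2, q3, q4, q5⟩ := hx
      obtain ⟨p0, p1, p2, p3, p4, p5⟩ := hx'
      rcases q2.eq_or_lt with hbe | hbe
      · -- be x = 0
        rcases le_or_gt (al x + r x) 1 with hle | hgt
        · rw [min_eq_right hle]
          have := min_le_left (1 : ℝ) (al x' + r x')
          linarith
        · rw [min_eq_left hgt.le]
          have hr : 0 < r x := by linarith
          have hal' : al x' = 0 := by
            rcases p0.eq_or_lt with h | h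
            · exact h.symm
            · have := (ha h).2
              linarith
          have hm := min_le_right (1 : ℝ) (al x' + r x')
          rcases p4.eq_or_lt with h | h
          · linarith
          · have := hc hr h
            linarith
      · have hal' : al x' = 0 := by
          rcases p0.eq_or_lt with h | h
          · exact h.symm
          · have := (ha h).1
            linarith
        have hr' : r x' = 0 := by
          rcases p4.eq_or_lt with h | h
          · exact h.symm
          · have := hb h
            linarith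
        have hm := min_le_right (1 : ℝ) (al x' + r x')
        rcases min_cases (1 : ℝ) (al x + r x) with ⟨he, hl⟩ | ⟨he, hl⟩ <;> rw [he] <;> linarith
    have e1 : ((x :: x' :: t).map (fun x => al x + be x + r x)).sum
        = al x + be x + r x + ((x' :: t).map (fun x => al x + be x + r x)).sum := by
      simp only [List.map_cons, List.sum_cons]
    have e2 : ((x :: x' :: t).length : ℝ) = ((x' :: t).length : ℝ) + 1 := by
      simp only [List.length_cons, Nat.cast_add, Nat.cast_one]
    rw [e1, e2]
    linarith

/-- the weights received by the internal vertices of one path -/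
theorem real_list {V : Type*} (al be r : V → ℝ) (I : List V) (hI : I ≠ [])
    (h1 : ∀ x ∈ I, 0 ≤ al x ∧ al x ≤ 1 ∧ 0 ≤ be x ∧ be x ≤ 1 ∧ 0 ≤ r x ∧ al x + be x + r x ≤ 2)
    (h2 : I.IsChain (fun x x' => (0 < al x' → be x = 0 ∧ r x = 0) ∧ (0 < r x' → be x = 0) ∧
      (0 < r x → 0 < r x' → r x + r x' ≤ 1))) :
    (I.map (fun x => al x + be x + r x)).sum ≤ (I.length : ℝ) + 1 := by
  cases I with
  | nil => exact absurd rfl hI
  | cons x t =>
    have h := real_list_aux al be r t x h1 h2
    have := min_le_left (1 : ℝ) (al x + r x)
    linarith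

end H80Q
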