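import Pool.Agent.Lib.H80Q.X0

/-!
# H80Q, file T1: terminals
-/

set_option autoImplicit false

namespace H80Q

open Finset

private theorem t1_rev {V : Type*} {A : V → V → Prop} (hs : ∀ u v, A u v → A v u) {l : List V} (h : l.IsChain A) :
    l.reverse.IsChain A := by
  rw [List.isChain_reverse]
  exact h.imp fun a b hab => hs a b hab

/-- three pairwise adjacent vertices -/
private theorem t1_tri {V : Type*} {A : V → V → Prop} (hs : ∀ u v, A u v → A v u) {P : List V}
    (hl : P.length = 3) (hS : Sp A P) : ∃ z w z', (([z, w, z'] : List V) : Multiset V) = (P : Multiset V) ∧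
      A z w ∧ A w z ∧ A w z' ∧ A z' w ∧ A z' z ∧ A z z' := by
  rcases hS with hS | ⟨z, Z, z', h1, h2, h3⟩
  · omega
  have h4 : (z :: (Z ++ [z'])).length = P.length := (Multiset.coe_eq_coe.1 h1).length_eq
  rw [hl] at h4
  simp only [List.length_cons, List.length_append, List.length_nil] at h4
  obtain ⟨w, rfl⟩ : ∃ w, Z = [w] := List.length_eq_one_iff.1 (by omega)
  rw [List.singleton_append, List.isChain_cons_cons, List.isChain_cons_cons] at h2
  exact ⟨z, w, z', h1, h2.1, hs _ _ h2.1, h2.2.1, hs _ _ h2.2.1, h3, hs _ _ h3⟩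

private theorem t1_mem {V : Type*} {P : List V} {z w z' t : V}
    (h : (([z, w, z'] : List V) : Multiset V) = (P : Multiset V)) (ht : t ∈ P) : t = z ∨ t = w ∨ t = z' := by
  have h1 : t ∈ [z, w, z'] := (Multiset.coe_eq_coe.1 h).mem_iff.2 ht
  simpa using h1

theorem isT_tm {V : Type*} {A : V → V → Prop} (hs : ∀ u v, A u v → A v u) {P : List V} (hp : P ≠ []) (hc : P.IsChain A)
    {t : V} (ht : IsT A P t) : Tm A P t := by
  obtain ⟨hmem, ⟨hl, hS⟩ | h | h⟩ := ht
  · have key : P.length = 3 ∨ P.head? = some t ∨ P.getLast? = some t := by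
      rcases P with _ | ⟨x, _ | ⟨y, _ | ⟨z, _ | ⟨w, l⟩⟩⟩⟩
      · exact absurd rfl hp
      · rw [List.mem_singleton] at hmem
        subst hmem
        exact Or.inr (Or.inl rfl)
      · rw [List.mem_cons, List.mem_singleton] at hmem
        rcases hmem with rfl | rfl
        · exact Or.inr (Or.inl rfl)
        · exact Or.inr (Or.inr rfl)
      · exact Or.inl rfl
      · simp only [List.length_cons] at hl
        omega
    rcases key with h3 | h | h
    · obtain ⟨z, w, z', e, a1, a2, a3, a4, a5, a6⟩ := t1_tri hs h3 hS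
      rcases t1_mem e hmem with rfl | rfl | rfl
      · refine ⟨[w, z'], e, ?_⟩
        rw [List.isChain_cons_cons, List.isChain_cons_cons]
        exact ⟨a1, a3, List.isChain_singleton _⟩
      · refine ⟨[z, z'], ?_, ?_⟩
        · rw [← e]
          exact Multiset.coe_eq_coe.2 (List.Perm.swap _ _ _)
        · rw [List.isChain_cons_cons, List.isChain_cons_cons]
          exact ⟨a2, a6, List.isChain_singleton _⟩
      · refine ⟨[w, z], ?_, ?_⟩
        · rw [← e]
          exact Multiset.coe_eq_coe.2 (List.reverse_perm [z, w, t])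
        · rw [List.isChain_cons_cons, List.isChain_cons_cons]
          exact ⟨a4, a2, List.isChain_singleton _⟩
    · exact Tm.head hc h
    · exact Tm.rev_last hs hc h
  · exact Tm.head hc h
  · exact Tm.rev_last hs hc h

theorem isT_tm2 {V : Type*} {A : V → V → Prop} (hs : ∀ u v, A u v → A v u) {P : List V} (hn : P.Nodup)
    (hc : P.IsChain A) {t t' : V} (ht : IsT A P t) (ht' : IsT A P t') (hne : t ≠ t') : Tm2 A P t t' := by
  have hends : (P.head? = some t ∨ P.getLast? = some t) → (P.head? = some t' ∨ P.getLast? = some t') →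
      Tm2 A P t t' := by
    rintro (h | h) (h' | h')
    · rw [h] at h'
      exact absurd (Option.some.inj h') hne
    · exact ⟨P, rfl, hc, h, h'⟩
    · refine ⟨P.reverse, Multiset.coe_eq_coe.2 (List.reverse_perm P), t1_rev hs hc, ?_, ?_⟩
      · rw [List.head?_reverse]
        exact h
      · rw [List.getLast?_reverse]
        exact h'
    · rw [h] at h'
      exact absurd (Option.some.inj h') hne
  by_cases hsp : P.length ≤ 3 ∧ Sp A P
  · by_cases h3 : P.length = 3
    · obtain ⟨z, w, z', e, a1, a2, a3, a4, a5, a6⟩ := t1_tri hs h3 hsp.2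
      -- the third vertex
      have key : ∀ s : V, (([t, s, t'] : List V) : Multiset V) = (P : Multiset V) → A t s → A s t' → Tm2 A P t t' := by
        intro s h1 h2 h3
        refine ⟨[t, s, t'], h1, ?_, rfl, rfl⟩
        rw [List.isChain_cons_cons, List.isChain_cons_cons]
        exact ⟨h2, h3, List.isChain_singleton _⟩
      rcases t1_mem e ht.1 with rfl | rfl | rfl <;> rcases t1_mem e ht'.1 with rfl | rfl | rfl
      · exact absurd rfl hne
      · refine key z' ?_ a6 a4
        rw [← e]
        exact Multiset.coe_eq_coe.2 (List.Perm.cons _ (List.Perm.swap _ _ _))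
      · exact key w e a1 a3
      · refine key z' ?_ a3 a5
        rw [← e]
        exact Multiset.coe_eq_coe.2 ((List.Perm.cons _ (List.Perm.swap _ _ _)).trans (List.Perm.swap _ _ _))
      · exact absurd rfl hne
      · refine key z ?_ a2 a6
        rw [← e]
        exact Multiset.coe_eq_coe.2 (List.Perm.swap _ _ _)
      · refine key w ?_ a4 a2
        rw [← e]
        exact Multiset.coe_eq_coe.2 (List.reverse_perm [t', w, t])
      · refine key z ?_ a5 a1
        rw [← e]
        exact Multiset.coe_eq_coe.2 ((List.Perm.swap _ _ _).trans (List.Perm.cons _ (List.Perm.swap _ _ _)))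
      · exact absurd rfl hne
    · have hl : P.length ≤ 2 := by omega
      have hall : ∀ s ∈ P, P.head? = some s ∨ P.getLast? = some s := by
        intro s hmem
        rcases P with _ | ⟨x, _ | ⟨y, _ | ⟨z, l⟩⟩⟩
        · exact absurd hmem List.not_mem_nil
        · rw [List.mem_singleton] at hmem
          subst hmem
          exact Or.inl rfl
        · rw [List.mem_cons, List.mem_singleton] at hmem
          rcases hmem with rfl | rfl
          · exact Or.inl rfl
          · exact Or.inr rfl
        · simp only [List.length_cons] at hl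
          omega
      exact hends (hall t ht.1) (hall t' ht'.1)
  · exact hends (ht.2.resolve_left hsp) (ht'.2.resolve_left hsp)

theorem isT_tm2_one {V : Type*} {A : V → V → Prop} {P : List V} (hl : P.length = 1) {t : V} (ht : IsT A P t) :
    Tm2 A P t t := by
  obtain ⟨x, rfl⟩ := List.length_eq_one_iff.1 hl
  have h1 := ht.1
  rw [List.mem_singleton] at h1
  subst h1
  exact ⟨[t], rfl, List.isChain_singleton _, rfl, rfl⟩

/-- a path with no cycle on its vertex set: its ends are not adjacent -/
theorem nc_ends {V : Type*} {A : V → V → Prop} (hs : ∀ u v, A u v → A v u) {I : List V} {a b : V}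
    (hc : (a :: (I ++ [b])).IsChain A) (hn : ¬ Cyc A (a :: (I ++ [b]))) : ¬ A a b :=
  fun h => hn ⟨a, I, b, rfl, hc, hs _ _ h⟩

/-- ... and there is no crossed pair -/
theorem nc_cross {V : Type*} {A : V → V → Prop} (hs : ∀ u v, A u v → A v u) {X Y : List V} {a b x x' : V}
    (hc : (a :: (X ++ x :: x' :: (Y ++ [b]))).IsChain A) (hn : ¬ Cyc A (a :: (X ++ x :: x' :: (Y ++ [b])))) :
    ¬ (A a x' ∧ A b x) := by
  rintro ⟨h1, h2⟩
  apply hn
  have e0 : a :: (X ++ x :: x' :: (Y ++ [b])) = (a :: (X ++ [x])) ++ (x' :: (Y ++ [b])) := by simp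
  have e1 : a :: ((X ++ x :: b :: Y.reverse) ++ [x']) = (a :: (X ++ [x])) ++ (x' :: (Y ++ [b])).reverse := by simp
  refine ⟨a, X ++ x :: b :: Y.reverse, x', ?_, ?_, hs _ _ h1⟩
  · rw [e0, e1]
    exact Multiset.coe_eq_coe.2 (List.Perm.append_left _ (List.reverse_perm _))
  · rw [e0, List.isChain_append] at hc
    rw [e1, List.isChain_append]
    refine ⟨hc.1, t1_rev hs hc.2.1, ?_⟩
    intro p hp q hq
    have e2 : (a :: (X ++ [x])).getLast? = some x := by
      rw [← List.cons_append, List.getLast?_concat]
    have e3 : (x' :: (Y ++ [b])).reverse.head? = some b := by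
      rw [List.head?_reverse, ← List.cons_append, List.getLast?_concat]
    rw [e2, Option.mem_def, Option.some.injEq] at hp
    rw [e3, Option.mem_def, Option.some.injEq] at hq
    subst hp
    subst hq
    exact hs _ _ h2

/-- the terminals of a path which is not special are its two ends -/
theorem isT_nonsp {V : Type*} {A : V → V → Prop} {I : List V} {a b : V} (hI : I ≠ [])
    (hn : ¬ Sp A (a :: (I ++ [b]))) (t : V) : IsT A (a :: (I ++ [b])) t ↔ t = a ∨ t = b := by
  have e1 : (a :: (I ++ [b])).head? = some a := rfl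
  have e2 : (a :: (I ++ [b])).getLast? = some b := by
    rw [← List.cons_append, List.getLast?_concat]
  constructor
  · rintro ⟨_, ⟨_, h⟩ | h | h⟩
    · exact absurd h hn
    · rw [e1, Option.some.injEq] at h
      exact Or.inl h.symm
    · rw [e2, Option.some.injEq] at h
      exact Or.inr h.symm
  · rintro (rfl | rfl)
    · exact ⟨List.mem_cons_self, Or.inr (Or.inl e1)⟩
    · exact ⟨by simp, Or.inr (Or.inr e2)⟩

end H80Q
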