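import Pool.Agent.Lib.H80Q.X0

/-!
# H80Q, file X2: exchanges e3a, e3b, e4
-/

set_option autoImplicit false

namespace H80Q

open Finset

private theorem x2_rev {V : Type*} {A : V → V → Prop} (hs : ∀ u v, A u v → A v u) {l : List V}
    (h : l.IsChain A) : l.reverse.IsChain A :=
  List.isChain_reverse.2 (h.imp fun a b hab => hs a b hab)

private theorem x2_vs1 {V : Type*} (P : List V) : vs ({P} : Multiset (List V)) = (P : Multiset V) := by
  simp [vs]

private theorem x2_vs2 {V : Type*} (P Q : List V) :
    vs ({P, Q} : Multiset (List V)) = (P : Multiset V) + (Q : Multiset V) := by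
  simp [vs]

/-- one path on all vertices of two paths contradicts minimality -/
private theorem x2_one {V : Type*} {A : V → V → Prop} {P Q R : List V} (h : MinC A {P, Q}) (hne : R ≠ [])
    (hc : R.IsChain A) (hv : (R : Multiset V) = (P : Multiset V) + (Q : Multiset V)) : False := by
  have h3 := h.2.2 {R} (by
    intro l hl
    rw [Multiset.mem_singleton] at hl
    rw [hl]
    exact ⟨hne, hc⟩) (by
    rw [x2_vs1, x2_vs2, hv])
  simp at h3

theorem e3a {V : Type*} {A : V → V → Prop} (hs : ∀ u v, A u v → A v u) {P X Y : List V} {a w w' t : V}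
    (h : MinC A {P, a :: (X ++ w :: w' :: Y)}) (ht : Tm A P t) : ¬ (A t w ∧ A a w') := by
  rintro ⟨hA, hA'⟩
  obtain ⟨Z, hZ, hZc⟩ := ht
  have hc : (a :: (X ++ w :: w' :: Y)).IsChain A := (h.1 _ (by simp)).2
  have hc' : ((a :: X) ++ w :: w' :: Y).IsChain A := by simpa using hc
  obtain ⟨hc1, hc2, hc3⟩ := List.isChain_append_cons_cons.1 hc'
  have h1 : (((t :: Z).reverse ++ ((a :: X) ++ [w]).reverse) ++ (w' :: Y)).IsChain A := by
    rw [List.isChain_append]
    refine ⟨?_, hc3, ?_⟩
    · rw [List.isChain_append]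
      refine ⟨x2_rev hs hZc, x2_rev hs hc1, ?_⟩
      intro x hx y hy
      simp only [List.reverse_cons, List.reverse_append, List.reverse_nil, List.nil_append, List.cons_append,
        List.getLast?_concat, Option.mem_def, Option.some.injEq, List.head?_cons] at hx hy
      rw [← hx, ← hy]
      exact hA
    · intro x hx y hy
      have e1 : ((t :: Z).reverse ++ ((a :: X) ++ [w]).reverse) =
          ((t :: Z).reverse ++ (w :: X.reverse)) ++ [a] := by simp
      rw [e1] at hx
      simp only [List.getLast?_concat, Option.mem_def, Option.some.injEq, List.head?_cons] at hx hy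
      rw [← hx, ← hy]
      exact hA'
  refine x2_one h (by simp) h1 ?_
  have e2 : a :: (X ++ w :: w' :: Y) = ((a :: X) ++ [w]) ++ (w' :: Y) := by simp
  rw [e2, ← hZ]
  rw [← Multiset.coe_add, ← Multiset.coe_add, ← Multiset.coe_add, Multiset.coe_reverse, Multiset.coe_reverse,
    add_assoc]

theorem e3b {V : Type*} {A : V → V → Prop} (hs : ∀ u v, A u v → A v u) {P X Y : List V} {b w w' t : V}
    (h : MinC A {P, X ++ w :: w' :: (Y ++ [b])}) (ht : Tm A P t) : ¬ (A t w' ∧ A b w) := by
  rintro ⟨hA, hA'⟩
  obtain ⟨Z, hZ, hZc⟩ := ht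
  have hc : (X ++ w :: w' :: (Y ++ [b])).IsChain A := (h.1 _ (by simp)).2
  obtain ⟨hc1, hc2, hc3⟩ := List.isChain_append_cons_cons.1 hc
  have h1 : (((X ++ [w]) ++ (w' :: (Y ++ [b])).reverse) ++ (t :: Z)).IsChain A := by
    rw [List.isChain_append]
    refine ⟨?_, hZc, ?_⟩
    · rw [List.isChain_append]
      refine ⟨hc1, x2_rev hs hc3, ?_⟩
      intro x hx y hy
      simp only [List.reverse_cons, List.reverse_append, List.reverse_nil, List.nil_append, List.cons_append,
        List.getLast?_concat, Option.mem_def, Option.some.injEq, List.head?_cons] at hx hy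
      rw [← hx, ← hy]
      exact hs _ _ hA'
    · intro x hx y hy
      have e1 : ((X ++ [w]) ++ (w' :: (Y ++ [b])).reverse) =
          ((X ++ [w]) ++ (b :: Y.reverse)) ++ [w'] := by simp
      rw [e1] at hx
      simp only [List.getLast?_concat, Option.mem_def, Option.some.injEq, List.head?_cons] at hx hy
      rw [← hx, ← hy]
      exact hs _ _ hA
  refine x2_one h (by simp) h1 ?_
  have e2 : X ++ w :: w' :: (Y ++ [b]) = (X ++ [w]) ++ (w' :: (Y ++ [b])) := by simp
  rw [e2, ← hZ]
  rw [← Multiset.coe_add, ← Multiset.coe_add, ← Multiset.coe_add, Multiset.coe_reverse]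
  exact add_comm _ _

theorem e4 {V : Type*} {A : V → V → Prop} (hs : ∀ u v, A u v → A v u) {P Q : List V} {w t : V}
    (h : MinC A {P, Q}) (ht : Tm A P t) (hc : Cyc A Q) (hw : w ∈ Q) : ¬ A t w := by
  intro hA
  obtain ⟨Z, hZ, hZc⟩ := ht
  obtain ⟨z, C, z', hC, hCc, hzz⟩ := hc
  have hwC : w ∈ (z :: (C ++ [z'])) := by
    have h1 : w ∈ ((z :: (C ++ [z']) : List V) : Multiset V) := by
      rw [hC]
      exact hw
    exact h1
  obtain ⟨X, Y, hXY⟩ := List.append_of_mem hwC
  have hch : (X ++ w :: Y).IsChain A := by rw [← hXY]; exact hCc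
  obtain ⟨hX, hY, -⟩ := List.isChain_append.1 hch
  have hrot : ((w :: Y) ++ X).IsChain A := by
    rw [List.isChain_append]
    refine ⟨hY, hX, ?_⟩
    intro x hx y hy
    have hx' : x = z' := by
      have h1 : (X ++ w :: Y).getLast? = some z' := by
        rw [← hXY, ← List.cons_append, List.getLast?_concat]
      rw [List.getLast?_append_of_ne_nil _ (by simp)] at h1
      rw [h1] at hx
      simpa using hx.symm
    have hy' : y = z := by
      have h1 : (X ++ w :: Y).head? = some z := by
        rw [← hXY]
        rfl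
      cases X with
      | nil => simp at hy
      | cons x0 X =>
        simp only [List.cons_append, List.head?_cons, Option.some.injEq, Option.mem_def] at h1 hy
        rw [← hy, h1]
    rw [hx', hy']
    exact hzz
  have h1 : ((t :: Z).reverse ++ ((w :: Y) ++ X)).IsChain A := by
    rw [List.isChain_append]
    refine ⟨x2_rev hs hZc, hrot, ?_⟩
    intro x hx y hy
    simp only [List.reverse_cons, List.cons_append,
      List.getLast?_concat, Option.mem_def, Option.some.injEq, List.head?_cons] at hx hy
    rw [← hx, ← hy]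
    exact hA
  refine x2_one h (by simp) h1 ?_
  rw [← hC, hXY, ← hZ]
  rw [← Multiset.coe_add, ← Multiset.coe_add, ← Multiset.coe_add, Multiset.coe_reverse, add_comm (X : Multiset V)]

end H80Q
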