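import Pool.Agent.Lib.H80Q.X1
import Pool.Agent.Lib.H80Q.X2
import Pool.Agent.Lib.H80Q.T1
import Pool.Agent.Lib.H80Q.R1

/-!
# H80Q, file A1: what the internal vertices of one path receive
-/

set_option autoImplicit false

namespace H80Q

open Finset

/-- special paths receive nothing -/
theorem recv_sp {V : Type*} [Fintype V] [DecidableEq V] {A : V → V → Prop} {y : V → V → ℝ} (h : FH A y)
    {L : Multiset (List V)} (hL : MinC A L) {m : V → V → ℝ} (hm : Mass A L m) {P : List V} (hP : P ∈ L)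
    (hs : Sp A P) : ∀ w ∈ P, ¬ IsT A P w → ∑ t ∈ TT A L, m t w = 0 := by
  intro w hw hnt
  have hc : Cyc A P := by
    rcases hs with h2 | hc
    · exact absurd ⟨hw, Or.inl ⟨by omega, Or.inl h2⟩⟩ hnt
    · exact hc
  apply Finset.sum_eq_zero
  intro t ht
  simp only [TT, Finset.mem_filter, Finset.mem_univ, true_and] at ht
  obtain ⟨Q, hQ, htQ⟩ := ht
  by_contra hne
  have hadj := hm.adj Q hQ t htQ w hne
  by_cases hQP : Q = P
  · subst hQP
    exact hne (hm.own Q hQ hs t htQ w hw)
  · exact e4 h.adjSymm (hL.mono (pair_le hQ hP hQP))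
      (isT_tm h.adjSymm (hL.1 Q hQ).1 (hL.1 Q hQ).2 htQ) hc hw hadj

private theorem h58_form {V : Type*} {P : List V} (h : 3 ≤ P.length) :
    ∃ (a : V) (I : List V) (b : V), I ≠ [] ∧ P = a :: (I ++ [b]) := by
  cases P with
  | nil => simp at h
  | cons a T =>
    have hT : T ≠ [] := by
      rintro rfl
      simp at h
    refine ⟨a, T.dropLast, T.getLast hT, ?_, ?_⟩
    · intro h0
      have h1 : T.dropLast.length = 0 := by rw [h0]; rfl
      rw [List.length_dropLast] at h1
      simp only [List.length_cons] at h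
      omega
    · rw [List.dropLast_append_getLast hT]

/-- a path which is not special receives at most (number of its vertices) - 1 -/
theorem recv_le {V : Type*} [Fintype V] [DecidableEq V] {A : V → V → Prop} {y : V → V → ℝ} (h : FH A y)
    {L : Multiset (List V)} (hL : MinC A L) {m : V → V → ℝ} (hm : Mass A L m) {P : List V} (hP : P ∈ L)
    (hs : ¬ Sp A P) : ∑ w ∈ P.toFinset \ TT A {P}, ∑ t ∈ TT A L, m t w ≤ (P.length : ℝ) - 1 := by
  have h3 : 3 ≤ P.length := by
    by_contra hlt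
    exact hs (Or.inl (by omega))
  obtain ⟨a, I, b, hI, rfl⟩ := h58_form h3
  have hnd : (a :: (I ++ [b])).Nodup := nodup_of_mem hL.2.1 hP
  have hchn : (a :: (I ++ [b])).IsChain A := (hL.1 _ hP).2
  have hnc : ¬ Cyc A (a :: (I ++ [b])) := fun hc => hs (Or.inr hc)
  have hisT := isT_nonsp (A := A) hI hs
  have hTa : IsT A (a :: (I ++ [b])) a := (hisT a).2 (Or.inl rfl)
  have hTb : IsT A (a :: (I ++ [b])) b := (hisT b).2 (Or.inr rfl)
  have hnd1 := (List.nodup_cons.1 hnd).1
  have hnd2 := (List.nodup_cons.1 hnd).2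
  have hIn : I.Nodup := (List.nodup_append.1 hnd2).1
  have hab : a ≠ b := fun he => hnd1 (by simp [he])
  have haI : a ∉ I := fun he => hnd1 (by simp [he])
  have hbI : b ∉ I := fun he => (List.nodup_append.1 hnd2).2.2 b he b (by simp) rfl
  have hTT : TT A {(a :: (I ++ [b]))} = ({a, b} : Finset V) := by
    ext t
    simp only [TT, Finset.mem_filter, Finset.mem_univ, true_and, Multiset.mem_singleton, exists_eq_left,
      Finset.mem_insert, Finset.mem_singleton]
    exact hisT t
  have hset : (a :: (I ++ [b])).toFinset \ ({a, b} : Finset V) = I.toFinset := by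
    ext t
    simp only [Finset.mem_sdiff, List.mem_toFinset, List.mem_cons, List.mem_append, Finset.mem_insert,
      Finset.mem_singleton, List.not_mem_nil, or_false]
    constructor
    · rintro ⟨h1 | h1 | h1, h2⟩
      · exact absurd (Or.inl h1) h2
      · exact h1
      · exact absurd (Or.inr h1) h2
    · intro h1
      refine ⟨Or.inr (Or.inl h1), ?_⟩
      rintro (rfl | rfl)
      · exact haI h1
      · exact hbI h1
  rw [hTT, hset]
  have hsub : ({a, b} : Finset V) ⊆ TT A L := by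
    intro t ht
    simp only [TT, Finset.mem_filter, Finset.mem_univ, true_and]
    simp only [Finset.mem_insert, Finset.mem_singleton] at ht
    exact ⟨_, hP, (hisT t).2 ht⟩
  obtain ⟨r, hrdef⟩ : ∃ r : V → ℝ, ∀ w, r w = ∑ t ∈ TT A L \ {a, b}, m t w := ⟨_, fun w => rfl⟩
  have hsum : ∀ w, ∑ t ∈ TT A L, m t w = m a w + m b w + r w := by
    intro w
    rw [← Finset.sum_sdiff hsub, Finset.sum_pair hab, hrdef]
    ring
  rw [Finset.sum_congr rfl (fun w _ => hsum w), List.sum_toFinset _ hIn]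
  have hr0 : ∀ w, 0 ≤ r w := by
    intro w
    rw [hrdef]
    exact Finset.sum_nonneg (fun t _ => hm.nonneg t w)
  have hxn : ∀ x ∈ I, ¬ IsT A (a :: (I ++ [b])) x := by
    intro x hx ht
    rcases (hisT x).1 ht with rfl | rfl
    · exact haI hx
    · exact hbI hx
  -- the terminals of the other paths
  have hq : ∀ t ∈ TT A L \ {a, b}, ∃ Q ∈ L, Q ≠ a :: (I ++ [b]) ∧ IsT A Q t := by
    intro t ht
    obtain ⟨ht1, ht2⟩ := Finset.mem_sdiff.1 ht
    simp only [TT, Finset.mem_filter, Finset.mem_univ, true_and] at ht1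
    obtain ⟨Q, hQ, hQt⟩ := ht1
    refine ⟨Q, hQ, ?_, hQt⟩
    rintro rfl
    apply ht2
    simp only [Finset.mem_insert, Finset.mem_singleton]
    exact (hisT t).1 hQt
  have hr : ∀ x, r x ≠ 0 → ∃ t ∈ TT A L \ {a, b}, m t x ≠ 0 := by
    intro x hx
    rw [hrdef] at hx
    exact Finset.exists_ne_zero_of_sum_ne_zero hx
  have key := real_list (fun w => m a w) (fun w => m b w) r I hI ?_ ?_
  · have hlen : ((a :: (I ++ [b])).length : ℝ) = (I.length : ℝ) + 2 := by
      simp only [List.length_cons, List.length_append, List.length_nil]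
      push_cast
      ring
    rw [hlen]
    have e : (I.map (fun w => m a w + m b w + r w)).sum ≤ (I.length : ℝ) + 1 := key
    linarith
  · intro x hx
    refine ⟨hm.nonneg a x, hm.le1 _ hP hs a hTa x, hm.nonneg b x, hm.le1 _ hP hs b hTb x, hr0 x, ?_⟩
    have h1 := hm.cap _ hP hs x (by simp [hx]) (hxn x hx)
    rw [hsum] at h1
    exact h1
  · rw [List.isChain_iff_forall_rel_of_append_cons_cons]
    intro x x' X Y hXY
    have hPeq : a :: (I ++ [b]) = a :: (X ++ x :: x' :: (Y ++ [b])) := by rw [hXY]; simp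
    have hPeq2 : a :: (I ++ [b]) = (a :: X) ++ x :: x' :: (Y ++ [b]) := by rw [hXY]; simp
    have hmin : ∀ Q ∈ L, Q ≠ a :: (I ++ [b]) → MinC A {Q, a :: (I ++ [b])} :=
      fun Q hQ hne => hL.mono (pair_le hQ hP hne)
    have htm : ∀ Q ∈ L, ∀ t, IsT A Q t → Tm A Q t :=
      fun Q hQ t ht => isT_tm h.adjSymm (hL.1 Q hQ).1 (hL.1 Q hQ).2 ht
    refine ⟨fun h1 => ⟨?_, ?_⟩, fun h1 => ?_, fun h1 h2 => ?_⟩
    · by_contra hne
      have e1 := hm.adj _ hP a hTa x' (ne_of_gt h1)
      have e2 := hm.adj _ hP b hTb x hne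
      rw [hPeq] at hchn hnc
      exact nc_cross h.adjSymm hchn hnc ⟨e1, e2⟩
    · by_contra hne
      obtain ⟨t, ht, hmt⟩ := hr x hne
      obtain ⟨Q, hQ, hQP, hQt⟩ := hq t ht
      have e1 := hm.adj _ hP a hTa x' (ne_of_gt h1)
      have e2 := hm.adj _ hQ t hQt x hmt
      have e3 := hmin Q hQ hQP
      rw [hPeq] at e3
      exact e3a h.adjSymm e3 (htm Q hQ t hQt) ⟨e2, e1⟩
    · by_contra hne
      obtain ⟨t, ht, hmt⟩ := hr x' (ne_of_gt h1)
      obtain ⟨Q, hQ, hQP, hQt⟩ := hq t ht
      have e1 := hm.adj _ hQ t hQt x' hmt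
      have e2 := hm.adj _ hP b hTb x hne
      have e3 := hmin Q hQ hQP
      rw [hPeq2] at e3
      exact e3b h.adjSymm e3 (htm Q hQ t hQt) ⟨e1, e2⟩
    · have claim : ∀ t ∈ TT A L \ {a, b}, ∀ t' ∈ TT A L \ {a, b}, m t x ≠ 0 → m t' x' ≠ 0 →
          t = t' ∧ m t x + m t x' ≤ 1 := by
        intro t ht t' ht' hmt hmt'
        obtain ⟨Q, hQ, hQP, hQt⟩ := hq t ht
        obtain ⟨Q', hQ', hQP', hQt'⟩ := hq t' ht'
        have e1 := hm.adj _ hQ t hQt x hmt
        have e2' := hm.adj _ hQ' t' hQt' x' hmt'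
        have hQQ : Q = Q' := by
          by_contra hne
          have e3 : MinC A {Q, Q', a :: (I ++ [b])} := hL.mono (triple_le hQ hQ' hP hne hQP hQP')
          rw [hPeq2] at e3
          exact e2 h.adjSymm e3 (htm Q hQ t hQt) (htm Q' hQ' t' hQt') ⟨e1, e2'⟩
        subst hQQ
        have e3 := hmin Q hQ hQP
        rw [hPeq2] at e3
        have htt : t = t' := by
          by_contra hne
          exact e2b h.adjSymm e3 (isT_tm2 h.adjSymm (nodup_of_mem hL.2.1 hQ) (hL.1 Q hQ).2 hQt hQt' hne) ⟨e1, e2'⟩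
        subst htt
        refine ⟨rfl, ?_⟩
        have hlen1 : Q.length ≠ 1 := by
          intro hl
          exact e2b h.adjSymm e3 (isT_tm2_one hl hQt) ⟨e1, e2'⟩
        exact hm.pair Q hQ _ hP hQP hlen1 t hQt (a :: X) (Y ++ [b]) x x' hPeq2 e1 e2'
      obtain ⟨t, ht, hmt⟩ := hr x (ne_of_gt h1)
      obtain ⟨t', ht', hmt'⟩ := hr x' (ne_of_gt h2)
      obtain ⟨htt, hle⟩ := claim t ht t' ht' hmt hmt'
      subst htt
      have f1 : r x = m t x := by
        rw [hrdef]
        refine Finset.sum_eq_single_of_mem t ht (fun s hs1 hs2 => ?_)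
        by_contra hne
        exact hs2 (claim s hs1 t ht' hne hmt').1
      have f2 : r x' = m t x' := by
        rw [hrdef]
        refine Finset.sum_eq_single_of_mem t ht (fun s hs1 hs2 => ?_)
        by_contra hne
        exact hs2 (claim t ht s hs1 hmt hne).1.symm
      rw [f1, f2]
      exact hle

end H80Q
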