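import Pool.Agent.Lib.H80Q.A1

/-!
# H80Q, file A2: the count over a closed collection of paths
-/

set_option autoImplicit false

namespace H80Q

open Finset

namespace A2

theorem mem_TT {V : Type*} [Fintype V] {A : V → V → Prop} {D : Multiset (List V)} {t : V} :
    t ∈ TT A D ↔ ∃ P ∈ D, IsT A P t := by
  classical
  simp [TT]

theorem mem_TT_one {V : Type*} [Fintype V] {A : V → V → Prop} {P : List V} {t : V} :
    t ∈ TT A {P} ↔ IsT A P t := by
  simp [mem_TT]

theorem isT_mem {V : Type*} {A : V → V → Prop} {P : List V} {t : V} (h : IsT A P t) : t ∈ P := h.1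

theorem split_ends {V : Type*} {P : List V} (h : 2 < P.length) : ∃ (a : V) (I : List V) (b : V),
    P = a :: (I ++ [b]) ∧ I ≠ [] := by
  cases P with
  | nil => simp at h
  | cons a Q =>
    have hQ : Q ≠ [] := by
      rintro rfl
      simp at h
    refine ⟨a, Q.dropLast, Q.getLast hQ, ?_, ?_⟩
    · rw [List.dropLast_append_getLast hQ]
    · intro h0
      have h1 : Q.dropLast.length = 0 := by rw [h0]; rfl
      rw [List.length_dropLast] at h1
      simp at h
      omega

theorem nodup_of_minC {V : Type*} {A : V → V → Prop} {L : Multiset (List V)} (h : MinC A L) : L.Nodup := by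
  rw [Multiset.nodup_iff_ne_cons_cons]
  intro P t ht
  have h1 := h.2.1
  have hne : P ≠ [] := (h.1 P (by rw [ht]; simp)).1
  rw [ht, vs_cons, Multiset.nodup_add] at h1
  obtain ⟨v, hv⟩ := List.exists_mem_of_ne_nil P hne
  have h2 := h1.2.2
  rw [Multiset.disjoint_left] at h2
  apply h2 (a := v) (by simpa using hv)
  rw [vs_cons]
  simp [hv]

/-- terminals are never adjacent to each other inside the support of the masses -/
theorem no_term {V : Type*} [Fintype V] [DecidableEq V] {A : V → V → Prop} {y : V → V → ℝ} (h : FH A y)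
    {L : Multiset (List V)} (hL : MinC A L) {m : V → V → ℝ} (hm : Mass A L m) {P Q : List V} (hP : P ∈ L)
    (hQ : Q ∈ L) {t w : V} (ht : IsT A P t) (hw : IsT A Q w) : m t w = 0 := by
  by_contra h0
  have hA : A t w := hm.adj P hP t ht w h0
  by_cases hPQ : P = Q
  · subst hPQ
    by_cases hs : Sp A P
    · exact h0 (hm.own P hP hs t ht w hw.1)
    · have hlen : 2 < P.length := by
        by_contra hle
        exact hs (Or.inl (by omega))
      obtain ⟨a, I, b, hPe, hI⟩ := split_ends hlen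
      subst hPe
      have hc := (hL.1 _ hP).2
      have hn : ¬ Cyc A (a :: (I ++ [b])) := fun hc' => hs (Or.inr hc')
      have hab : ¬ A a b := nc_ends h.adjSymm hc hn
      have ht' := (isT_nonsp hI hs t).1 ht
      have hw' := (isT_nonsp hI hs w).1 hw
      rcases ht' with rfl | rfl <;> rcases hw' with rfl | rfl
      · exact h.adjIrrefl _ hA
      · exact hab hA
      · exact hab (h.adjSymm _ _ hA)
      · exact h.adjIrrefl _ hA
  · have h2 : MinC A {P, Q} := hL.mono (pair_le hP hQ hPQ)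
    exact e1 h.adjSymm h2 (isT_tm h.adjSymm (hL.1 P hP).1 (hL.1 P hP).2 ht)
      (isT_tm h.adjSymm (hL.1 Q hQ).1 (hL.1 Q hQ).2 hw) hA

theorem sent_nonsp {V : Type*} [Fintype V] [DecidableEq V] {A : V → V → Prop}
    {L : Multiset (List V)} (hL : MinC A L) {m : V → V → ℝ} (hm : Mass A L m) {P : List V} (hP : P ∈ L)
    (hs : ¬ Sp A P) : ∑ t ∈ TT A {P}, ∑ w, m t w = 4 := by
  have hlen : 2 < P.length := by
    by_contra hle
    exact hs (Or.inl (by omega))
  obtain ⟨a, I, b, hPe, hI⟩ := split_ends hlen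
  subst hPe
  have hnd : (a :: (I ++ [b])).Nodup := nodup_of_mem hL.2.1 hP
  have hab : a ≠ b := by
    rintro rfl
    simp at hnd
  have hT : TT A {a :: (I ++ [b])} = {a, b} := by
    ext t
    rw [mem_TT_one, isT_nonsp hI hs]
    simp
  rw [hT, Finset.sum_pair hab]
  have ha : IsT A (a :: (I ++ [b])) a := (isT_nonsp hI hs a).2 (Or.inl rfl)
  have hb : IsT A (a :: (I ++ [b])) b := (isT_nonsp hI hs b).2 (Or.inr rfl)
  rw [hm.tot _ hP hs a ha, hm.tot _ hP hs b hb]
  norm_num

theorem one_path {V : Type*} [Fintype V] [DecidableEq V] {A : V → V → Prop} {y : V → V → ℝ} (h : FH A y)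
    {L : Multiset (List V)} (hL : MinC A L) {m : V → V → ℝ} (hm : Mass A L m) {P : List V} (hP : P ∈ L) :
    need P ≤ ∑ t ∈ TT A {P}, ∑ w, m t w - ∑ w ∈ P.toFinset \ TT A {P}, ∑ t ∈ TT A L, m t w := by
  by_cases hs : Sp A P
  · have h0 : ∑ w ∈ P.toFinset \ TT A {P}, ∑ t ∈ TT A L, m t w = 0 := by
      apply Finset.sum_eq_zero
      intro w hw
      rw [Finset.mem_sdiff, List.mem_toFinset, mem_TT_one] at hw
      exact recv_sp h hL hm hP hs w hw.1 hw.2
    rw [h0, sub_zero]
    exact hm.sp P hP hs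
  · have h1 := recv_le h hL hm hP hs
    have h2 := sent_nonsp hL hm hP hs
    have hlen : ¬ P.length ≤ 2 := fun hle => hs (Or.inl hle)
    have h3 : need P = 5 - (P.length : ℝ) := by
      unfold need
      rw [if_neg hlen]
    rw [h2, h3]
    linarith

end A2

theorem closed_sum {V : Type*} [Fintype V] [DecidableEq V] {A : V → V → Prop} {y : V → V → ℝ} (h : FH A y)
    {L : Multiset (List V)} (hL : MinC A L) {m : V → V → ℝ} (hm : Mass A L m) {D : Multiset (List V)} (hD : D ≤ L)
    (hc : ∀ P ∈ D, ∀ t, IsT A P t → ∀ w, A t w → w ∈ vs D) : (D.map need).sum ≤ 0 := by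
  classical
  have hDL : ∀ P ∈ D, P ∈ L := fun P hP => Multiset.mem_of_le hD hP
  have hDn : D.Nodup := Multiset.nodup_of_le hD (A2.nodup_of_minC hL)
  have hS : (D.map need).sum = ∑ P ∈ D.toFinset, need P := by
    rw [Finset.sum, Multiset.toFinset_val, Multiset.dedup_eq_self.2 hDn]
  have hmem : ∀ P, P ∈ D.toFinset ↔ P ∈ D := fun P => Multiset.mem_toFinset
  have hdis : ∀ P ∈ D.toFinset, ∀ Q ∈ D.toFinset, P ≠ Q → Disjoint P.toFinset Q.toFinset := by
    intro P hP Q hQ hne
    rw [Finset.disjoint_left]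
    intro v h1 h2
    rw [List.mem_toFinset] at h1 h2
    exact hne (eq_of_mem hL.2.1 (hDL P ((hmem P).1 hP)) (hDL Q ((hmem Q).1 hQ)) h1 h2)
  have hTsub : ∀ P, TT A {P} ⊆ P.toFinset := by
    intro P t ht
    rw [A2.mem_TT_one] at ht
    rw [List.mem_toFinset]
    exact ht.1
  have hS1 : ∑ P ∈ D.toFinset, ∑ t ∈ TT A {P}, ∑ w, m t w
      = ∑ t ∈ D.toFinset.biUnion (fun P => TT A {P}), ∑ w, m t w := by
    rw [Finset.sum_biUnion]
    intro P hP Q hQ hne
    exact Disjoint.mono (hTsub P) (hTsub Q) (hdis P hP Q hQ hne)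
  have hS2 : ∑ P ∈ D.toFinset, ∑ w ∈ P.toFinset \ TT A {P}, ∑ t ∈ TT A L, m t w
      = ∑ w ∈ D.toFinset.biUnion (fun P => P.toFinset \ TT A {P}), ∑ t ∈ TT A L, m t w := by
    rw [Finset.sum_biUnion]
    intro P hP Q hQ hne
    exact Disjoint.mono Finset.sdiff_subset Finset.sdiff_subset (hdis P hP Q hQ hne)
  have hkey : ∑ t ∈ D.toFinset.biUnion (fun P => TT A {P}), ∑ w, m t w
      ≤ ∑ w ∈ D.toFinset.biUnion (fun P => P.toFinset \ TT A {P}), ∑ t ∈ TT A L, m t w := by
    have e1 : ∑ t ∈ D.toFinset.biUnion (fun P => TT A {P}), ∑ w, m t w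
        = ∑ t ∈ D.toFinset.biUnion (fun P => TT A {P}),
          ∑ w ∈ D.toFinset.biUnion (fun P => P.toFinset \ TT A {P}), m t w := by
      apply Finset.sum_congr rfl
      intro t ht
      symm
      apply Finset.sum_subset (Finset.subset_univ _)
      intro w _ hw
      rw [Finset.mem_biUnion] at ht
      obtain ⟨P, hP, htP⟩ := ht
      rw [hmem] at hP
      rw [A2.mem_TT_one] at htP
      by_contra h0
      have hA : A t w := hm.adj P (hDL P hP) t htP w h0
      obtain ⟨Q, hQ, hwQ⟩ := mem_vs.1 (hc P hP t htP w hA)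
      by_cases hT : IsT A Q w
      · exact h0 (A2.no_term h hL hm (hDL P hP) (hDL Q hQ) htP hT)
      · apply hw
        rw [Finset.mem_biUnion]
        refine ⟨Q, (hmem Q).2 hQ, ?_⟩
        rw [Finset.mem_sdiff, List.mem_toFinset, A2.mem_TT_one]
        exact ⟨hwQ, hT⟩
    rw [e1, Finset.sum_comm]
    apply Finset.sum_le_sum
    intro w _
    apply Finset.sum_le_sum_of_subset_of_nonneg
    · intro t ht
      rw [Finset.mem_biUnion] at ht
      obtain ⟨P, hP, htP⟩ := ht
      rw [hmem] at hP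
      rw [A2.mem_TT_one] at htP
      exact A2.mem_TT.2 ⟨P, hDL P hP, htP⟩
    · intro t _ _
      exact hm.nonneg t w
  have hfin : ∑ P ∈ D.toFinset, need P ≤ ∑ P ∈ D.toFinset,
      (∑ t ∈ TT A {P}, ∑ w, m t w - ∑ w ∈ P.toFinset \ TT A {P}, ∑ t ∈ TT A L, m t w) := by
    apply Finset.sum_le_sum
    intro P hP
    exact A2.one_path h hL hm (hDL P ((hmem P).1 hP))
  rw [Finset.sum_sub_distrib, hS1, hS2] at hfin
  rw [hS]
  linarith

end H80Q
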