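import Pool.Agent.Lib.H80Q.X1
import Pool.Agent.Lib.H80Q.X2
import Pool.Agent.Lib.H80Q.T1

/-!
# H80Q, file C1: closure of a small path
-/

set_option autoImplicit false

namespace H80Q

open Finset

private theorem c1_qs_cons {V : Type*} (P : List V) (L : Multiset (List V)) :
    qs (P ::ₘ L) = qs L + if P.length ≤ 2 then 1 else 0 := by
  unfold qs
  rw [Multiset.countP_cons]

private theorem c1_qs_add {V : Type*} (L L' : Multiset (List V)) : qs (L + L') = qs L + qs L' := by
  unfold qs
  rw [Multiset.countP_add]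

private theorem c1_opt_congr {V : Type*} {A : V → V → Prop} {L L' : Multiset (List V)} (h : Opt A L)
    (h1 : Pth A L') (h2 : vs L' = vs L) (h3 : L'.card = L.card) (h4 : qs L' = qs L) : Opt A L' := by
  refine ⟨h.1.congr h1 h2 h3, fun M hM hM2 hM3 => ?_⟩
  rw [h4]
  exact h.2 M hM (hM2.trans h2) (hM3.trans h3)

/-- a path with at most two vertices can be arranged to end in a given vertex -/
private theorem c1_small {V : Type*} {A : V → V → Prop} (hs : ∀ u v, A u v → A v u) {B : List V}
    (hc : B.IsChain A) (hl : B.length ≤ 2) {t : V} (ht : t ∈ B) :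
    Tm A B t ∧ ∃ Z : List V, ((Z ++ [t] : List V) : Multiset V) = (B : Multiset V) ∧ (Z ++ [t]).IsChain A := by
  match B, hl with
  | [], _ => simp at ht
  | [a], _ =>
    have h : t = a := by simpa using ht
    subst h
    exact ⟨⟨[], rfl, hc⟩, ⟨[], rfl, hc⟩⟩
  | [a, b], _ =>
    have hab : A a b := by simpa using hc
    have h : t = a ∨ t = b := by simpa using ht
    rcases h with h | h
    · subst h
      refine ⟨⟨[b], rfl, hc⟩, ⟨[b], ?_, ?_⟩⟩
      · exact Multiset.coe_eq_coe.2 (List.Perm.swap _ _ _)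
      · simpa using hs _ _ hab
    · subst h
      refine ⟨⟨[a], ?_, ?_⟩, ⟨[a], rfl, hc⟩⟩
      · exact Multiset.coe_eq_coe.2 (List.Perm.swap _ _ _)
      · simpa using hs _ _ hab
  | _ :: _ :: _ :: _, h => simp at h

private def C1Good {V : Type*} (A : V → V → Prop) (L : Multiset (List V)) (B : List V)
    (D : Multiset (List V)) : Prop :=
  D ≤ L ∧ B ∈ D ∧ (∀ P ∈ D, P = B ∨ (3 ≤ P.length ∧ P.length ≤ 5)) ∧
    ∀ P ∈ D, ∀ t, IsT A P t → ∃ (B' : List V) (D' : Multiset (List V)), Pth A (B' ::ₘ D') ∧
      vs (B' ::ₘ D') = vs D ∧ (B' ::ₘ D').card = D.card ∧ qs (B' ::ₘ D') = qs D ∧ B'.length ≤ 2 ∧ t ∈ B'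

/-- one of the two exchanges: the path of `t` is continued through `w` into `be`, the part `al` is left over -/
private theorem c1_exch {V : Type*} {A : V → V → Prop} (hs : ∀ u v, A u v → A v u) {B' Q al be : List V}
    {t w : V} (hO : Opt A {B', Q}) (hl : B'.length ≤ 2) (ht : t ∈ B') (hw : A t w)
    (hQ : ((al ++ w :: be : List V) : Multiset V) = (Q : Multiset V)) (hal : al ≠ []) (hbe : be ≠ [])
    (hca : al.IsChain A) (hcb : (w :: be).IsChain A) :
    al.length ≤ 2 ∧ ∃ R : List V, R ≠ [] ∧ R.IsChain A ∧ ¬ R.length ≤ 2 ∧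
      (R : Multiset V) + (al : Multiset V) = (B' : Multiset V) + (Q : Multiset V) := by
  have hB' : B' ≠ [] ∧ B'.IsChain A := hO.1.1 B' (by simp)
  obtain ⟨-, Z, hZ1, hZ2⟩ := c1_small hs hB'.2 hl ht
  have hlen : Z.length + 1 = B'.length := by
    have := congrArg Multiset.card hZ1
    simpa using this
  have hQlen : al.length + (be.length + 1) = Q.length := by
    have := congrArg Multiset.card hQ
    simpa using this
  have hal' : 0 < al.length := List.length_pos_of_ne_nil hal
  have hbe' : 0 < be.length := List.length_pos_of_ne_nil hbe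
  have hR1 : ((Z ++ [t]) ++ w :: be).IsChain A := by
    rw [List.isChain_append]
    refine ⟨hZ2, hcb, ?_⟩
    intro x hx y hy
    have hx' : x = t := by simpa [eq_comm] using hx
    have hy' : y = w := by simpa [eq_comm] using hy
    rw [hx', hy']
    exact hw
  have hR3 : ¬ ((Z ++ [t]) ++ w :: be).length ≤ 2 := by
    simp only [List.length_append, List.length_cons, List.length_nil]
    omega
  have hR4 : ((((Z ++ [t]) ++ w :: be : List V)) : Multiset V) + (al : Multiset V)
      = (B' : Multiset V) + (Q : Multiset V) := by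
    rw [← hZ1, ← hQ]
    simp only [Multiset.coe_add]
    refine Multiset.coe_eq_coe.2 ?_
    rw [List.append_assoc]
    exact List.Perm.append_left _ List.perm_append_comm
  refine ⟨?_, _, by simp, hR1, hR3, hR4⟩
  by_contra hcon
  have key := hO.2 {(Z ++ [t]) ++ w :: be, al} ?_ ?_ ?_
  · have e1 : qs ({B', Q} : Multiset (List V)) = 1 := by
      show qs (B' ::ₘ Q ::ₘ 0) = 1
      rw [c1_qs_cons, c1_qs_cons, if_pos hl, if_neg (by omega)]
      simp [qs]
    have e2 : qs ({(Z ++ [t]) ++ w :: be, al} : Multiset (List V)) = 0 := by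
      show qs (((Z ++ [t]) ++ w :: be) ::ₘ al ::ₘ 0) = 0
      rw [c1_qs_cons, c1_qs_cons, if_neg hR3, if_neg hcon]
      simp [qs]
    omega
  · intro l hl'
    have : l = (Z ++ [t]) ++ w :: be ∨ l = al := by simpa using hl'
    rcases this with h | h
    · rw [h]
      exact ⟨by simp, hR1⟩
    · rw [h]
      exact ⟨hal, hca⟩
  · show vs (((Z ++ [t]) ++ w :: be) ::ₘ al ::ₘ 0) = vs (B' ::ₘ Q ::ₘ 0)
    simp only [vs_cons, vs_zero, add_zero]
    exact hR4
  · rfl

private theorem c1_step {V : Type*} {A : V → V → Prop} (hs : ∀ u v, A u v → A v u) {L : Multiset (List V)}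
    (hL : Opt A L) (hv : ∀ v, v ∈ vs L) {B : List V} {D : Multiset (List V)}
    (hD : C1Good A L B D) {P : List V} (hP : P ∈ D) {t : V} (ht : IsT A P t) {w : V} (hw : A t w)
    (hn : w ∉ vs D) : ∃ Q, C1Good A L B (Q ::ₘ D) := by
  obtain ⟨hDL, hBD, hlen, hterm⟩ := hD
  obtain ⟨R, hR⟩ := Multiset.le_iff_exists_add.1 hDL
  obtain ⟨B', D', hpth, hvs, hcard, hqs, hB'l, htB'⟩ := hterm P hP t ht
  -- the path of w
  obtain ⟨Q, hQL, hwQ⟩ := mem_vs.1 (hv w)
  have hQR : Q ∈ R := by
    rw [hR, Multiset.mem_add] at hQL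
    rcases hQL with h | h
    · exact absurd (mem_vs.2 ⟨Q, h, hwQ⟩) hn
    · exact h
  obtain ⟨R', hR'⟩ := Multiset.exists_cons_of_mem hQR
  have hQc : Q ≠ [] ∧ Q.IsChain A := hL.1.1 Q hQL
  -- the rearranged cover
  have hO : Opt A (B' ::ₘ D' + R) := by
    refine c1_opt_congr hL ?_ ?_ ?_ ?_
    · intro l hl'
      rcases Multiset.mem_add.1 hl' with h | h
      · exact hpth l h
      · exact hL.1.1 l (by rw [hR]; exact Multiset.mem_add.2 (Or.inr h))
    · rw [vs_add, hvs, hR, vs_add]
    · rw [Multiset.card_add, hcard, hR, Multiset.card_add]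
    · rw [c1_qs_add, hqs, hR, c1_qs_add]
  have hO2 : Opt A {B', Q} := by
    refine hO.mono ?_
    rw [hR']
    show B' ::ₘ Q ::ₘ 0 ≤ _
    rw [Multiset.cons_add, Multiset.add_cons]
    exact Multiset.cons_le_cons _ (Multiset.cons_le_cons _ (Multiset.zero_le _))
  have hB'c : B' ≠ [] ∧ B'.IsChain A := hpth B' (Multiset.mem_cons_self _ _)
  have hTm : Tm A B' t := (c1_small hs hB'c.2 hB'l htB').1
  have hncyc : ¬ Cyc A Q := fun h => e4 hs hO2.1 hTm h hwQ hw
  obtain ⟨al, be, hQe⟩ := List.append_of_mem hwQ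
  have hal : al ≠ [] := by
    intro h
    rw [h] at hQe
    refine e1 hs hO2.1 hTm (Tm.head hQc.2 ?_) hw
    rw [hQe]
    rfl
  have hbe : be ≠ [] := by
    intro h
    rw [h] at hQe
    refine e1 hs hO2.1 hTm (Tm.rev_last hs hQc.2 ?_) hw
    rw [hQe]
    simp
  have hal' : 0 < al.length := List.length_pos_of_ne_nil hal
  have hbe' : 0 < be.length := List.length_pos_of_ne_nil hbe
  have hQl : Q.length = al.length + (be.length + 1) := by
    rw [hQe]; simp
  have hcQ : (al ++ w :: be).IsChain A := hQe ▸ hQc.2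
  have hca : al.IsChain A := (List.isChain_append.1 hcQ).1
  have hcb : (w :: be).IsChain A := (List.isChain_append.1 hcQ).2.1
  have hcb' : be.IsChain A := (List.isChain_append.1 (show ([w] ++ be).IsChain A from hcb)).2.1
  have hca' : (w :: al.reverse).IsChain A := by
    have h1 : (al ++ [w]).IsChain A := by
      have h2 : ((al ++ [w]) ++ be).IsChain A := by simpa using hcQ
      exact (List.isChain_append.1 h2).1
    have h3 : (al ++ [w]).reverse.IsChain (fun a b => A b a) := by
      rw [List.isChain_reverse]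
      exact h1
    have h4 : (w :: al.reverse).IsChain (fun a b => A b a) := by simpa using h3
    exact h4.imp (fun a b h => hs _ _ h)
  obtain ⟨hal2, Ra, hRa1, hRa2, hRa3, hRa4⟩ := c1_exch hs hO2 hB'l htB' hw (al := al) (be := be)
    (by rw [hQe]) hal hbe hca hcb
  obtain ⟨hbe2, Rb, hRb1, hRb2, hRb3, hRb4⟩ := c1_exch hs hO2 hB'l htB' hw (al := be) (be := al.reverse)
    (by
      rw [hQe]
      refine Multiset.coe_eq_coe.2 ?_
      have h1 : (be ++ w :: al.reverse).Perm (w :: al.reverse ++ be) := List.perm_append_comm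
      refine h1.trans ?_
      have h2 : (w :: al.reverse ++ be).Perm (w :: (al ++ be)) := by
        refine List.Perm.cons _ ?_
        exact (List.reverse_perm al).append_right be
      refine h2.trans ?_
      exact List.perm_middle.symm) hbe (by simpa using hal) hcb' hca'
  have hQl3 : ¬ Q.length ≤ 2 := by omega
  refine ⟨Q, ?_, Multiset.mem_cons_of_mem hBD, ?_, ?_⟩
  · rw [hR, hR', Multiset.add_cons]
    exact Multiset.cons_le_cons _ (Multiset.le_add_right _ _)
  · intro P' hP'
    rcases Multiset.mem_cons.1 hP' with h | h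
    · right
      rw [h]
      omega
    · exact hlen P' h
  · intro P' hP' t' ht'
    rcases Multiset.mem_cons.1 hP' with h | h
    · -- a terminal of the new path
      rw [h] at ht'
      have hmain : t' ∈ al ∨ t' ∈ be := by
        rcases ht'.2 with h1 | h1 | h1
        · rcases h1.2 with h2 | h2
          · exact absurd h2 hQl3
          · exact absurd h2 hncyc
        · left
          cases al with
          | nil => exact absurd rfl hal
          | cons a al1 =>
            rw [hQe] at h1
            have : t' = a := by simpa [eq_comm] using h1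
            rw [this]
            simp
        · right
          rcases List.eq_nil_or_concat be with h2 | ⟨be1, b, h2⟩
          · exact absurd h2 hbe
          · rw [hQe, h2] at h1
            have h3 : al ++ w :: (be1.concat b) = (al ++ w :: be1) ++ [b] := by simp
            have : t' = b := by
              rw [h3, List.getLast?_append_of_ne_nil _ (by simp)] at h1
              exact (Option.some.inj h1).symm
            rw [this, h2, List.concat_eq_append]
            exact List.mem_append_right _ (List.mem_singleton_self b)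
      have hgen : ∀ (X Y : List V), Y ≠ [] → Y.IsChain A → ¬ Y.length ≤ 2 → X ≠ [] → X.IsChain A → X.length ≤ 2 →
          (Y : Multiset V) + (X : Multiset V) = (B' : Multiset V) + (Q : Multiset V) → t' ∈ X →
          ∃ (B'' : List V) (D'' : Multiset (List V)), Pth A (B'' ::ₘ D'') ∧
            vs (B'' ::ₘ D'') = vs (Q ::ₘ D) ∧ (B'' ::ₘ D'').card = (Q ::ₘ D).card ∧
            qs (B'' ::ₘ D'') = qs (Q ::ₘ D) ∧ B''.length ≤ 2 ∧ t' ∈ B'' := by
        intro X Y hY1 hY2 hY3 hX1 hX2 hX3 hXY htX
        refine ⟨X, Y ::ₘ D', ?_, ?_, ?_, ?_, hX3, htX⟩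
        · refine Pth.cons hX1 hX2 (Pth.cons hY1 hY2 ?_)
          intro l hl'
          exact hpth l (Multiset.mem_cons_of_mem hl')
        · rw [vs_cons, vs_cons, vs_cons, ← hvs, vs_cons, ← add_assoc, add_comm (X : Multiset V), hXY,
            ← add_assoc, add_comm (B' : Multiset V)]
        · rw [Multiset.card_cons, Multiset.card_cons, Multiset.card_cons, ← hcard, Multiset.card_cons]
        · rw [c1_qs_cons, c1_qs_cons, c1_qs_cons, ← hqs, c1_qs_cons, if_pos hX3, if_neg hY3, if_neg hQl3,
            if_pos hB'l]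
      rcases hmain with h1 | h1
      · exact hgen al Ra hRa1 hRa2 hRa3 hal hca hal2 hRa4 h1
      · exact hgen be Rb hRb1 hRb2 hRb3 hbe hcb' hbe2 hRb4 h1
    · obtain ⟨B1, D1, a1, a2, a3, a4, a5, a6⟩ := hterm P' h t' ht'
      refine ⟨B1, Q ::ₘ D1, ?_, ?_, ?_, ?_, a5, a6⟩
      · rw [Multiset.cons_swap]
        exact Pth.cons hQc.1 hQc.2 a1
      · rw [Multiset.cons_swap, vs_cons, a2, vs_cons]
      · rw [Multiset.cons_swap, Multiset.card_cons, a3, Multiset.card_cons]
      · rw [Multiset.cons_swap, c1_qs_cons, a4, c1_qs_cons]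

/-- in an optimal path cover a path with at most two vertices lies in a closed collection all of whose other
members have 3, 4 or 5 vertices -/
theorem closure {V : Type*} {A : V → V → Prop} (hs : ∀ u v, A u v → A v u) {L : Multiset (List V)}
    (hL : Opt A L) (hv : ∀ v, v ∈ vs L) {B : List V} (hB : B ∈ L) (hl : B.length ≤ 2) :
    ∃ D : Multiset (List V), D ≤ L ∧ B ∈ D ∧ (∀ P ∈ D, P = B ∨ (3 ≤ P.length ∧ P.length ≤ 5)) ∧
      ∀ P ∈ D, ∀ t, IsT A P t → ∀ w, A t w → w ∈ vs D := by
  by_contra hcon
  have hgrow : ∀ k : ℕ, ∃ D, C1Good A L B D ∧ k ≤ D.card := by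
    intro k
    induction k with
    | zero =>
      refine ⟨{B}, ⟨Multiset.singleton_le.2 hB, Multiset.mem_singleton_self B, ?_, ?_⟩, Nat.zero_le _⟩
      · intro P hP
        exact Or.inl (Multiset.mem_singleton.1 hP)
      · intro P hP t ht
        rw [Multiset.mem_singleton.1 hP] at ht
        refine ⟨B, 0, ?_, rfl, rfl, rfl, hl, ht.1⟩
        intro l hl'
        have : l = B := by simpa using hl'
        rw [this]
        exact hL.1.1 B hB
    | succ k ih =>
      obtain ⟨D, hD, hk⟩ := ih
      by_contra hno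
      refine hcon ⟨D, hD.1, hD.2.1, hD.2.2.1, ?_⟩
      intro P hP t ht w hw
      by_contra hn
      obtain ⟨Q, hQ⟩ := c1_step hs hL hv hD hP ht hw hn
      exact hno ⟨Q ::ₘ D, hQ, by rw [Multiset.card_cons]; omega⟩
  obtain ⟨D, hD, hk⟩ := hgrow (L.card + 1)
  have := Multiset.card_le_card hD.1
  omega

end H80Q
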