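import Mathlib

/-!
# H80Q, file D: path covers of a graph with a fractional Hamiltonian cycle (definitions)

Goal (see `PROOF.md`): a finite graph with a fractional Hamiltonian cycle has a Hamiltonian path or a
partition of its `n` vertices into at most `n / 5` paths.
A path is a list of vertices, a path cover is a multiset of lists.
-/

set_option autoImplicit false

namespace H80Q

open Finset

/-- The vertices of a collection of lists (with multiplicities). -/
def vs {V : Type*} (L : Multiset (List V)) : Multiset V := (L.map (fun l => (l : Multiset V))).sum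

/-- Every member of `L` is a nonempty chain. -/
def Pth {V : Type*} (A : V → V → Prop) (L : Multiset (List V)) : Prop := ∀ l ∈ L, l ≠ [] ∧ l.IsChain A

/-- The number of lists with at most two entries. -/
def qs {V : Type*} (L : Multiset (List V)) : ℕ := L.countP (fun l => l.length ≤ 2)

/-- `L` is a path cover of its vertices with the minimum number of paths. -/
def MinC {V : Type*} (A : V → V → Prop) (L : Multiset (List V)) : Prop :=
  Pth A L ∧ (vs L).Nodup ∧ ∀ L', Pth A L' → vs L' = vs L → L.card ≤ L'.card

/-- ... and, subject to this, with the minimum number of paths with at most two vertices. -/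
def Opt {V : Type*} (A : V → V → Prop) (L : Multiset (List V)) : Prop :=
  MinC A L ∧ ∀ L', Pth A L' → vs L' = vs L → L'.card = L.card → qs L ≤ qs L'

/-- `t` is the first vertex of some path on the vertex set of `P`. -/
def Tm {V : Type*} (A : V → V → Prop) (P : List V) (t : V) : Prop :=
  ∃ Z : List V, ((t :: Z : List V) : Multiset V) = (P : Multiset V) ∧ (t :: Z).IsChain A

/-- Some path on the vertex set of `P` starts at `t` and ends at `t'`. -/
def Tm2 {V : Type*} (A : V → V → Prop) (P : List V) (t t' : V) : Prop :=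
  ∃ Z : List V, (Z : Multiset V) = (P : Multiset V) ∧ Z.IsChain A ∧ Z.head? = some t ∧ Z.getLast? = some t'

/-- The vertex set of `P` carries a cycle (or an edge, if `P` has two vertices). -/
def Cyc {V : Type*} (A : V → V → Prop) (P : List V) : Prop :=
  ∃ (z : V) (Z : List V) (z' : V), ((z :: (Z ++ [z']) : List V) : Multiset V) = (P : Multiset V) ∧
    (z :: (Z ++ [z'])).IsChain A ∧ A z' z

/-- Special paths: at most two vertices, or a cycle on the vertex set. -/
def Sp {V : Type*} (A : V → V → Prop) (P : List V) : Prop := P.length ≤ 2 ∨ Cyc A P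

/-- The terminals of `P`: its two ends; all vertices if `P` has at most two vertices or is a triangle. -/
def IsT {V : Type*} (A : V → V → Prop) (P : List V) (t : V) : Prop :=
  t ∈ P ∧ ((P.length ≤ 3 ∧ Sp A P) ∨ P.head? = some t ∨ P.getLast? = some t)

/-- What a path contributes to the weight count. -/
noncomputable def need {V : Type*} (P : List V) : ℝ := if P.length ≤ 2 then 2 else 5 - (P.length : ℝ)

/-- `y` is a fractional Hamiltonian cycle of the graph `A`. -/
structure FH {V : Type*} [Fintype V] [DecidableEq V] (A : V → V → Prop) (y : V → V → ℝ) : Prop where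
  adjSymm : ∀ u v, A u v → A v u
  adjIrrefl : ∀ v, ¬ A v v
  nonneg : ∀ u v, 0 ≤ y u v
  symm : ∀ u v, y u v = y v u
  supp : ∀ u v, ¬ A u v → y u v = 0
  deg : ∀ v, ∑ w, y v w = 2
  cut : ∀ S : Finset V, S.Nonempty → S ≠ univ → 2 ≤ ∑ a ∈ S, ∑ b ∈ univ \ S, y a b
  three : 3 ≤ Fintype.card V

/-- The weight from `t` to the vertices outside `P`. -/
noncomputable def out {V : Type*} [Fintype V] [DecidableEq V] (y : V → V → ℝ) (P : List V) (t : V) : ℝ :=
  ∑ w ∈ univ.filter (fun w => w ∉ P), y t w

/-- The condition on paths with four vertices which carry a 4-cycle. -/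
def Good4 {V : Type*} [Fintype V] [DecidableEq V] (A : V → V → Prop) (y : V → V → ℝ) (P : List V) : Prop :=
  P.length = 4 → Cyc A P → ∀ a b, P.head? = some a → P.getLast? = some b → 1 ≤ out y P a + out y P b

open Classical in
/-- The set of terminals of the members of `D`. -/
noncomputable def TT {V : Type*} [Fintype V] (A : V → V → Prop) (D : Multiset (List V)) : Finset V :=
  univ.filter (fun t => ∃ P ∈ D, IsT A P t)

/-- A mass function for the path cover `L`: what the terminals send to the other vertices. -/
structure Mass {V : Type*} [Fintype V] [DecidableEq V] (A : V → V → Prop) (L : Multiset (List V))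
    (m : V → V → ℝ) : Prop where
  nonneg : ∀ t w, 0 ≤ m t w
  adj : ∀ P ∈ L, ∀ t, IsT A P t → ∀ w, m t w ≠ 0 → A t w
  own : ∀ P ∈ L, Sp A P → ∀ t, IsT A P t → ∀ w ∈ P, m t w = 0
  tot : ∀ P ∈ L, ¬ Sp A P → ∀ t, IsT A P t → ∑ w, m t w = 2
  sp : ∀ P ∈ L, Sp A P → need P ≤ ∑ t ∈ TT A {P}, ∑ w, m t w
  le1 : ∀ P ∈ L, ¬ Sp A P → ∀ t, IsT A P t → ∀ w, m t w ≤ 1
  cap : ∀ Q ∈ L, ¬ Sp A Q → ∀ w ∈ Q, ¬ IsT A Q w → ∑ t ∈ TT A L, m t w ≤ 2
  pair : ∀ P ∈ L, ∀ Q ∈ L, P ≠ Q → P.length ≠ 1 → ∀ t, IsT A P t → ∀ (X Y : List V) (w w' : V),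
    Q = X ++ w :: w' :: Y → A t w → A t w' → m t w + m t w' ≤ 1

end H80Q
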