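import Pool.Agent.Lib.H80Q.X0

/-!
# H80Q, file G1: good orders for paths with four vertices
-/

set_option autoImplicit false

namespace H80Q

open Finset

private theorem g1_out_congr {V : Type*} [Fintype V] [DecidableEq V] (y : V → V → ℝ) {P Q : List V}
    (h : (P : Multiset V) = Q) (t : V) : out y P t = out y Q t := by
  unfold out
  have : (univ.filter (fun w => w ∉ P)) = univ.filter (fun w => w ∉ Q) := by
    apply Finset.filter_congr
    intro w _
    have h1 : w ∈ P ↔ w ∈ Q := by
      rw [← Multiset.mem_coe, h, Multiset.mem_coe]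
    rw [h1]
  rw [this]

private theorem g1_cut {V : Type*} [Fintype V] [DecidableEq V] {A : V → V → Prop} {y : V → V → ℝ} (h : FH A y)
    {a b c d : V} (hn : [a, b, c, d].Nodup) (hv : ∃ v, v ∉ [a, b, c, d]) :
    2 ≤ out y [a, b, c, d] a + out y [a, b, c, d] b + out y [a, b, c, d] c + out y [a, b, c, d] d := by
  obtain ⟨v, hv⟩ := hv
  have h1 := h.cut ({a, b, c, d} : Finset V) ⟨a, by simp⟩ (by
    intro h2
    have h3 : v ∈ ({a, b, c, d} : Finset V) := by rw [h2]; exact mem_univ v
    apply hv
    simpa using h3)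
  have h4 : (univ \ ({a, b, c, d} : Finset V)) = univ.filter (fun w => w ∉ [a, b, c, d]) := by
    ext w
    simp
  rw [h4] at h1
  have h5 : ∑ t ∈ ({a, b, c, d} : Finset V), out y [a, b, c, d] t =
      out y [a, b, c, d] a + out y [a, b, c, d] b + out y [a, b, c, d] c + out y [a, b, c, d] d := by
    simp only [List.nodup_cons, List.mem_cons, List.not_mem_nil, or_false, not_or, not_false_eq_true,
      List.nodup_nil, and_true] at hn
    obtain ⟨⟨h6, h7, h8⟩, ⟨h9, h10⟩, h11⟩ := hn
    rw [Finset.sum_insert (by simp [h6, h7, h8]), Finset.sum_insert (by simp [h9, h10]),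
      Finset.sum_insert (by simp [h11]), Finset.sum_singleton]
    ring
  rw [← h5]
  exact h1

/-- every path can be reordered to satisfy `Good4` -/
theorem good_list {V : Type*} [Fintype V] [DecidableEq V] {A : V → V → Prop} {y : V → V → ℝ} (h : FH A y) {P : List V}
    (hP : P ≠ [] ∧ P.IsChain A) (hn : P.Nodup) (hv : ∃ v, v ∉ P) :
    ∃ P' : List V, (P' : Multiset V) = P ∧ P'.IsChain A ∧ Good4 A y P' := by
  by_cases hc : P.length = 4 ∧ Cyc A P
  swap
  · exact ⟨P, rfl, hP.2, fun h1 h2 => absurd ⟨h1, h2⟩ hc⟩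
  obtain ⟨hl, z, Z, z', h1, h2, h3⟩ := hc
  have hlen : (z :: (Z ++ [z'])).length = 4 := by
    have := congrArg Multiset.card h1
    rw [Multiset.coe_card, Multiset.coe_card] at this
    omega
  have hZ : Z.length = 2 := by
    simp only [List.length_cons, List.length_append, List.length_nil] at hlen
    omega
  obtain ⟨b, c, rfl⟩ : ∃ b c, Z = [b, c] := by
    match Z, hZ with
    | [b, c], _ => exact ⟨b, c, rfl⟩
  simp only [List.cons_append, List.nil_append] at h1 h2
  simp only [List.isChain_cons_cons, List.IsChain.singleton, and_true] at h2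
  obtain ⟨h4, h5, h6⟩ := h2
  have hn' : [z, b, c, z'].Nodup := by
    rw [← Multiset.coe_nodup, h1, Multiset.coe_nodup]
    exact hn
  have hv' : ∃ v, v ∉ [z, b, c, z'] := by
    obtain ⟨v, hv⟩ := hv
    refine ⟨v, ?_⟩
    rw [← Multiset.mem_coe, h1, Multiset.mem_coe]
    exact hv
  have h7 := g1_cut h hn' hv'
  by_cases h8 : 1 ≤ out y [z, b, c, z'] z + out y [z, b, c, z'] z'
  · refine ⟨[z, b, c, z'], h1, ?_, ?_⟩
    · simp only [List.isChain_cons_cons, List.IsChain.singleton, and_true]
      exact ⟨h4, h5, h6⟩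
    · intro _ _ s t hs ht
      simp only [List.head?_cons, Option.some.injEq] at hs
      simp at ht
      subst hs ht
      exact h8
  · have h9 : ([c, z', z, b] : Multiset V) = ([z, b, c, z'] : List V) := by
      apply Multiset.coe_eq_coe.2
      have h10 : ([z, b] ++ [c, z']).Perm ([c, z'] ++ [z, b]) := List.perm_append_comm
      exact h10.symm
    refine ⟨[c, z', z, b], h9.trans h1, ?_, ?_⟩
    · simp only [List.isChain_cons_cons, List.IsChain.singleton, and_true]
      exact ⟨h6, h3, h4⟩
    · intro _ _ s t hs ht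
      simp only [List.head?_cons, Option.some.injEq] at hs
      simp at ht
      subst hs ht
      rw [g1_out_congr y h9, g1_out_congr y h9]
      linarith

private theorem g1_vs_map {V : Type*} {f : List V → List V} (L : Multiset (List V))
    (hf : ∀ P ∈ L, ((f P : List V) : Multiset V) = P) : vs (L.map f) = vs L := by
  induction L using Multiset.induction_on with
  | empty => simp
  | cons P L ih =>
    rw [Multiset.map_cons, vs_cons, vs_cons, hf P (Multiset.mem_cons_self _ _),
      ih (fun Q hQ => hf Q (Multiset.mem_cons_of_mem hQ))]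

theorem good_cover {V : Type*} [Fintype V] [DecidableEq V] {A : V → V → Prop} {y : V → V → ℝ} (h : FH A y)
    {L : Multiset (List V)} (hL : Opt A L) (h2 : 2 ≤ L.card) :
    ∃ L' : Multiset (List V), Opt A L' ∧ vs L' = vs L ∧ L'.card = L.card ∧ ∀ P ∈ L', Good4 A y P := by
  have key : ∀ P ∈ L, ∃ P' : List V, (P' : Multiset V) = P ∧ P'.IsChain A ∧ Good4 A y P' := by
    intro P hP
    refine good_list h (hL.1.1 P hP) (nodup_of_mem hL.1.2.1 hP) ?_
    obtain ⟨R, rfl⟩ := Multiset.exists_cons_of_mem hP
    rw [Multiset.card_cons] at h2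
    have h3 : 0 < R.card := by omega
    obtain ⟨Q, hQ⟩ := Multiset.card_pos_iff_exists_mem.1 h3
    have h4 := hL.1.1 Q (Multiset.mem_cons_of_mem hQ)
    obtain ⟨v, hv⟩ := List.exists_mem_of_ne_nil Q h4.1
    refine ⟨v, fun hv' => ?_⟩
    have h5 := hL.1.2.1
    rw [vs_cons] at h5
    have h6 := (Multiset.nodup_add.1 h5).2.2
    exact absurd (mem_vs.2 ⟨Q, hQ, hv⟩) (Multiset.disjoint_left.1 h6 (by simpa using hv'))
  classical
  choose! f hf1 hf2 hf3 using key
  have hlen : ∀ P ∈ L, (f P).length = P.length := by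
    intro P hP
    have := congrArg Multiset.card (hf1 P hP)
    rwa [Multiset.coe_card, Multiset.coe_card] at this
  have hvs : vs (L.map f) = vs L := g1_vs_map L hf1
  have hcard : (L.map f).card = L.card := Multiset.card_map _ _
  have hqs : qs (L.map f) = qs L := by
    unfold qs
    rw [Multiset.countP_map, Multiset.countP_eq_card_filter]
    congr 1
    exact Multiset.filter_congr (fun P hP => by rw [hlen P hP])
  have hpth : Pth A (L.map f) := by
    intro l hl
    obtain ⟨P, hP, rfl⟩ := Multiset.mem_map.1 hl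
    refine ⟨?_, hf2 P hP⟩
    intro h3
    have h4 := hlen P hP
    rw [h3] at h4
    exact (hL.1.1 P hP).1 (List.length_eq_zero_iff.1 h4.symm)
  refine ⟨L.map f, ⟨hL.1.congr hpth hvs hcard, ?_⟩, hvs, hcard, ?_⟩
  · intro L'' h3 h4 h5
    rw [hqs]
    exact hL.2 L'' h3 (h4.trans hvs) (h5.trans hcard)
  · intro P hP
    obtain ⟨Q, hQ, rfl⟩ := Multiset.mem_map.1 hP
    exact hf3 Q hQ

end H80Q
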