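import Pool.Agent.Lib.H80Q.X0

/-!
# H80Q, file M1: weights of special paths
-/

set_option autoImplicit false

namespace H80Q

open Finset

private theorem m1_diag {V : Type*} [Fintype V] [DecidableEq V] {A : V → V → Prop} {y : V → V → ℝ} (h : FH A y)
    (u : V) : y u u = 0 := h.supp u u (h.adjIrrefl u)

private theorem m1_split {V : Type*} [Fintype V] [DecidableEq V] {A : V → V → Prop} {y : V → V → ℝ} (h : FH A y)
    (S : Finset V) (t : V) : ∑ w ∈ univ \ S, y t w = 2 - ∑ w ∈ S, y t w := by
  have h1 := Finset.sum_sdiff (f := fun w => y t w) (Finset.subset_univ S)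
  rw [h.deg t] at h1
  linarith

theorem le_one {V : Type*} [Fintype V] [DecidableEq V] {A : V → V → Prop} {y : V → V → ℝ} (h : FH A y) (u v : V) :
    y u v ≤ 1 := by
  by_cases huv : u = v
  · subst huv
    rw [m1_diag h]
    norm_num
  · have hne : ({u, v} : Finset V) ≠ univ := by
      intro h1
      have h2 : (univ : Finset V).card ≤ 2 := by
        rw [← h1]
        exact Finset.card_le_two
      have h3 := h.three
      rw [← Finset.card_univ] at h3
      omega
    have h1 := h.cut {u, v} ⟨u, by simp⟩ hne
    simp only [m1_split h, Finset.sum_pair huv] at h1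
    rw [m1_diag h, m1_diag h, h.symm v u] at h1
    linarith

private theorem m1_filter {V : Type*} [Fintype V] [DecidableEq V] (P : List V) :
    univ.filter (fun w => w ∉ P) = univ \ P.toFinset := by
  ext w
  simp

theorem out_eq {V : Type*} [Fintype V] [DecidableEq V] {A : V → V → Prop} {y : V → V → ℝ} (h : FH A y) (P : List V)
    (t : V) : out y P t = 2 - ∑ w ∈ P.toFinset, y t w := by
  unfold out
  rw [m1_filter, m1_split h]

theorem out_sum {V : Type*} [Fintype V] [DecidableEq V] {A : V → V → Prop} {y : V → V → ℝ} (h : FH A y) {P : List V}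
    (hP : P ≠ []) (hv : ∃ v, v ∉ P) : 2 ≤ ∑ t ∈ P.toFinset, out y P t := by
  obtain ⟨v, hv⟩ := hv
  have h1 := h.cut P.toFinset (by
    obtain ⟨a, ha⟩ := List.exists_mem_of_ne_nil P hP
    exact ⟨a, by simpa using ha⟩) (by
    intro h2
    apply hv
    have h3 : v ∈ P.toFinset := by rw [h2]; exact Finset.mem_univ v
    simpa using h3)
  unfold out
  rw [m1_filter]
  exact h1

private theorem m1_out_nonneg {V : Type*} [Fintype V] [DecidableEq V] {A : V → V → Prop} {y : V → V → ℝ}
    (h : FH A y) (P : List V) (t : V) : 0 ≤ out y P t :=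
  Finset.sum_nonneg fun w _ => h.nonneg t w

private theorem m1_TT {V : Type*} [Fintype V] {A : V → V → Prop} {P : List V} {t : V} :
    t ∈ TT A {P} ↔ IsT A P t := by
  simp [TT]

/-- special paths with at least two vertices, weights out of the path cut off at 1 -/
theorem sp_need {V : Type*} [Fintype V] [DecidableEq V] {A : V → V → Prop} {y : V → V → ℝ} (h : FH A y) {P : List V}
    (hP : P ≠ [] ∧ P.IsChain A) (hn : P.Nodup) (hv : ∃ v, v ∉ P) (h1 : P.length ≠ 1) (hs : Sp A P) (hg : Good4 A y P) :
    need P ≤ ∑ t ∈ TT A {P}, min 1 (out y P t) := by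
  have hmin : ∀ t, 0 ≤ min 1 (out y P t) := fun t => le_min zero_le_one (m1_out_nonneg h P t)
  rcases P with _ | ⟨a, _ | ⟨b, _ | ⟨c, _ | ⟨d, _ | ⟨e, P⟩⟩⟩⟩⟩
  · exact absurd rfl hP.1
  · exact absurd rfl h1
  · -- two vertices
    have hab : a ≠ b := by
      intro hab
      subst hab
      simp at hn
    have hT : TT A {[a, b]} = {a, b} := by
      ext t
      rw [m1_TT]
      constructor
      · intro ht
        simpa using ht.1
      · intro ht
        exact ⟨by simpa using ht, Or.inl ⟨by simp, hs⟩⟩
    rw [hT, Finset.sum_pair hab]
    have h2 : ∀ t, out y [a, b] t = 2 - (y t a + y t b) := by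
      intro t
      rw [out_eq h]
      simp [Finset.sum_pair hab]
    have h3 : need [a, b] = 2 := by
      unfold need
      simp
    have h4 : 1 ≤ out y [a, b] a := by
      rw [h2, m1_diag h]
      linarith [le_one h a b]
    have h5 : 1 ≤ out y [a, b] b := by
      rw [h2, m1_diag h]
      linarith [le_one h b a]
    rw [h3, min_eq_left h4, min_eq_left h5]
    norm_num
  · -- three vertices
    have hab : a ≠ b := by
      intro hab
      subst hab
      simp at hn
    have hac : a ≠ c := by
      intro hac
      subst hac
      simp at hn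
    have hbc : b ≠ c := by
      intro hbc
      subst hbc
      simp at hn
    have hT : TT A {[a, b, c]} = {a, b, c} := by
      ext t
      rw [m1_TT]
      constructor
      · intro ht
        simpa using ht.1
      · intro ht
        exact ⟨by simpa using ht, Or.inl ⟨by simp, hs⟩⟩
    have hsum : ∀ f : V → ℝ, ∑ t ∈ ({a, b, c} : Finset V), f t = f a + f b + f c := by
      intro f
      rw [Finset.sum_insert (by simp [hab, hac]), Finset.sum_pair hbc]
      ring
    have htf : [a, b, c].toFinset = ({a, b, c} : Finset V) := by simp
    have h2 : ∀ t, out y [a, b, c] t = 2 - (y t a + y t b + y t c) := by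
      intro t
      rw [out_eq h, htf, hsum]
    have h3 : need [a, b, c] = 2 := by
      unfold need
      norm_num
    have h4 := out_sum h hP.1 hv
    rw [htf, hsum] at h4
    rw [hT, hsum, h3]
    have ha := h2 a
    have hb := h2 b
    have hc := h2 c
    rw [m1_diag h] at ha hb hc
    rw [h.symm b a] at hb
    rw [h.symm c a, h.symm c b] at hc
    have n1 := m1_out_nonneg h [a, b, c] a
    have n2 := m1_out_nonneg h [a, b, c] b
    have n3 := m1_out_nonneg h [a, b, c] c
    have l1 := le_one h a b
    have l2 := le_one h a c
    have l3 := le_one h b c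
    rcases le_total 1 (out y [a, b, c] a) with ga | ga <;> rcases le_total 1 (out y [a, b, c] b) with gb | gb <;>
      rcases le_total 1 (out y [a, b, c] c) with gc | gc
    · rw [min_eq_left ga, min_eq_left gb, min_eq_left gc]; linarith
    · rw [min_eq_left ga, min_eq_left gb, min_eq_right gc]; linarith
    · rw [min_eq_left ga, min_eq_right gb, min_eq_left gc]; linarith
    · rw [min_eq_left ga, min_eq_right gb, min_eq_right gc]; linarith
    · rw [min_eq_right ga, min_eq_left gb, min_eq_left gc]; linarith
    · rw [min_eq_right ga, min_eq_left gb, min_eq_right gc]; linarith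
    · rw [min_eq_right ga, min_eq_right gb, min_eq_left gc]; linarith
    · rw [min_eq_right ga, min_eq_right gb, min_eq_right gc]; linarith
  · -- four vertices
    have had : a ≠ d := by
      intro had
      subst had
      simp at hn
    have hcyc : Cyc A [a, b, c, d] := by
      rcases hs with hs | hs
      · simp at hs
      · exact hs
    have h2 := hg rfl hcyc a d rfl rfl
    have hsub : ({a, d} : Finset V) ⊆ TT A {[a, b, c, d]} := by
      intro t ht
      rw [m1_TT]
      rcases Finset.mem_insert.1 ht with rfl | ht
      · exact ⟨by simp, Or.inr (Or.inl rfl)⟩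
      · rw [Finset.mem_singleton.1 ht]
        exact ⟨by simp, Or.inr (Or.inr rfl)⟩
    have h3 := Finset.sum_le_sum_of_subset_of_nonneg hsub
      (f := fun t => min 1 (out y [a, b, c, d] t)) (fun t _ _ => hmin t)
    rw [Finset.sum_pair had] at h3
    have h4 : need [a, b, c, d] = 1 := by
      unfold need
      norm_num
    rw [h4]
    refine le_trans ?_ h3
    have n1 := m1_out_nonneg h [a, b, c, d] a
    have n2 := m1_out_nonneg h [a, b, c, d] d
    rcases le_total 1 (out y [a, b, c, d] a) with ga | ga <;> rcases le_total 1 (out y [a, b, c, d] d) with gb | gb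
    · rw [min_eq_left ga, min_eq_left gb]; linarith
    · rw [min_eq_left ga, min_eq_right gb]; linarith
    · rw [min_eq_right ga, min_eq_left gb]; linarith
    · rw [min_eq_right ga, min_eq_right gb]; linarith
  · -- at least five vertices
    have h2 : need (a :: b :: c :: d :: e :: P) ≤ 0 := by
      unfold need
      simp only [List.length_cons]
      rw [if_neg (by omega)]
      push_cast
      linarith [(Nat.cast_nonneg P.length : (0 : ℝ) ≤ (P.length : ℝ))]
    exact h2.trans (Finset.sum_nonneg fun t _ => hmin t)

end H80Q
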