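import Pool.Agent.Lib.H80Q.X0

/-!
# H80Q, file X3: exchanges e5a, e5b
-/

set_option autoImplicit false

namespace H80Q

open Finset

private theorem x3_rev {V : Type*} {A : V → V → Prop} (hs : ∀ u v, A u v → A v u) {l : List V}
    (h : l.IsChain A) : l.reverse.IsChain A :=
  List.isChain_reverse.2 (h.imp fun a b hab => hs a b hab)

private theorem x3_vs1 {V : Type*} (P : List V) : vs ({P} : Multiset (List V)) = (P : Multiset V) := by
  simp [vs]

private theorem x3_vs2 {V : Type*} (P Q : List V) :
    vs ({P, Q} : Multiset (List V)) = (P : Multiset V) + (Q : Multiset V) := by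
  simp [vs]

private theorem x3_vs3 {V : Type*} (P Q R : List V) :
    vs ({P, Q, R} : Multiset (List V)) = (P : Multiset V) + ((Q : Multiset V) + (R : Multiset V)) := by
  simp [vs]

private theorem x3_ins {V : Type*} {A : V → V → Prop} (hs : ∀ u v, A u v → A v u) {X Y : List V} {u w w' : V}
    (hc : (X ++ w :: w' :: Y).IsChain A) (h1 : A u w) (h2 : A u w') :
    (X ++ w :: u :: w' :: Y).IsChain A := by
  obtain ⟨hc1, _, hc3⟩ := List.isChain_append_cons_cons.1 hc
  rw [List.isChain_append_cons_cons]
  refine ⟨hc1, hs _ _ h1, ?_⟩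
  rw [List.isChain_cons_cons]
  exact ⟨h2, hc3⟩

private theorem x3_coe {V : Type*} (X Y : List V) (u w w' : V) :
    ((X ++ w :: u :: w' :: Y : List V) : Multiset V) = u ::ₘ ((X ++ w :: w' :: Y : List V) : Multiset V) := by
  have e1 : X ++ w :: u :: w' :: Y = (X ++ [w]) ++ (u :: w' :: Y) := by simp
  have e2 : X ++ w :: w' :: Y = (X ++ [w]) ++ (w' :: Y) := by simp
  have e3 : ((u :: w' :: Y : List V) : Multiset V) = u ::ₘ ((w' :: Y : List V) : Multiset V) := rfl
  rw [e1, e2, ← Multiset.coe_add (X ++ [w]), ← Multiset.coe_add (X ++ [w]), e3, Multiset.add_cons]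

/-- if the end `u` of a path is adjacent to two consecutive vertices `w`, `w'` of another path, then its neighbour `u2`
in the path is not adjacent to an end of a third path (insert `u` between `w` and `w'`) -/
theorem e5a {V : Type*} {A : V → V → Prop} (hs : ∀ u v, A u v → A v u) {P X Y Z : List V} {u u2 w w' t : V}
    (h : MinC A {u :: u2 :: Z, X ++ w :: w' :: Y, P}) (h1 : A u w) (h2 : A u w') (ht : Tm A P t) : ¬ A t u2 := by
  intro hA
  obtain ⟨Z', hZ', hZc'⟩ := ht
  have hc : (X ++ w :: w' :: Y).IsChain A := (h.1 _ (by simp)).2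
  have hu : (u :: u2 :: Z).IsChain A := (h.1 _ (by simp)).2
  rw [List.isChain_cons_cons] at hu
  have k1 := x3_ins hs hc h1 h2
  have k2 : ((t :: Z').reverse ++ (u2 :: Z)).IsChain A := by
    rw [List.isChain_append]
    refine ⟨x3_rev hs hZc', hu.2, ?_⟩
    intro x hx y hy
    simp only [List.reverse_cons, List.getLast?_concat, Option.mem_def, Option.some.injEq,
      List.head?_cons] at hx hy
    rw [← hx, ← hy]
    exact hA
  have k3 := h.2.2 {X ++ w :: u :: w' :: Y, (t :: Z').reverse ++ (u2 :: Z)} (by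
    intro l hl
    simp only [Multiset.insert_eq_cons, Multiset.mem_cons, Multiset.mem_singleton] at hl
    rcases hl with rfl | rfl
    · exact ⟨by simp, k1⟩
    · exact ⟨by simp, k2⟩) (by
    have e3 : ((u :: u2 :: Z : List V) : Multiset V) = u ::ₘ ((u2 :: Z : List V) : Multiset V) := rfl
    rw [x3_vs2, x3_vs3, x3_coe, e3, ← Multiset.coe_add _ (u2 :: Z), Multiset.coe_reverse, hZ',
      Multiset.cons_add, Multiset.cons_add]
    congr 1
    abel)
  simp at k3

theorem e5b {V : Type*} {A : V → V → Prop} (hs : ∀ u v, A u v → A v u) {X Y Z : List V} {u u2 w w' t : V}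
    (h : MinC A {u :: u2 :: Z, X ++ w :: w' :: Y}) (h1 : A u w) (h2 : A u w')
    (ht : (X ++ w :: w' :: Y).head? = some t ∨ (X ++ w :: w' :: Y).getLast? = some t) : ¬ A t u2 := by
  intro hA
  have hc : (X ++ w :: w' :: Y).IsChain A := (h.1 _ (by simp)).2
  have hu : (u :: u2 :: Z).IsChain A := (h.1 _ (by simp)).2
  rw [List.isChain_cons_cons] at hu
  have k1 := x3_ins hs hc h1 h2
  have e3 : ((u :: u2 :: Z : List V) : Multiset V) = u ::ₘ ((u2 :: Z : List V) : Multiset V) := rfl
  -- a path on the new vertex set which ends at `t`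
  obtain ⟨W, hW1, hW2, hW3⟩ : ∃ W : List V, W.IsChain A ∧
      (W : Multiset V) = ((X ++ w :: u :: w' :: Y : List V) : Multiset V) ∧ W.getLast? = some t := by
    rcases ht with ht | ht
    · refine ⟨(X ++ w :: u :: w' :: Y).reverse, x3_rev hs k1, Multiset.coe_reverse _, ?_⟩
      rw [List.getLast?_reverse]
      cases X with
      | nil => simpa using ht
      | cons a X => simpa using ht
    · refine ⟨X ++ w :: u :: w' :: Y, k1, rfl, ?_⟩
      rw [List.getLast?_append_of_ne_nil _ (by simp), List.getLast?_cons_cons] at ht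
      rw [List.getLast?_append_of_ne_nil _ (by simp), List.getLast?_cons_cons, List.getLast?_cons_cons]
      exact ht
  have k2 : (W ++ (u2 :: Z)).IsChain A := by
    rw [List.isChain_append]
    refine ⟨hW1, hu.2, ?_⟩
    intro x hx y hy
    rw [hW3] at hx
    simp only [Option.mem_def, Option.some.injEq, List.head?_cons] at hx hy
    rw [← hx, ← hy]
    exact hA
  have k3 := h.2.2 {W ++ (u2 :: Z)} (by
    intro l hl
    rw [Multiset.mem_singleton] at hl
    rw [hl]
    exact ⟨by simp, k2⟩) (by
    rw [x3_vs1, x3_vs2, ← Multiset.coe_add, hW2, x3_coe, e3, Multiset.cons_add, Multiset.cons_add]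
    congr 1
    abel)
  simp at k3

end H80Q
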