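import Pool.Agent.Lib.H80Q.X1
import Pool.Agent.Lib.H80Q.X2
import Pool.Agent.Lib.H80Q.X3
import Pool.Agent.Lib.H80Q.T1
import Pool.Agent.Lib.H80Q.M1

/-!
# H80Q, file M2: existence of the mass function
-/

set_option autoImplicit false

namespace H80Q

open Finset

/-- `s` is the neighbour of the end `t` of `P`. -/
private def M2Nb {V : Type*} (P : List V) (t s : V) : Prop :=
  ∃ Z : List V, P = t :: s :: Z ∨ P.reverse = t :: s :: Z

/-- `t` is adjacent to two consecutive vertices of another path. -/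
private def M2DC {V : Type*} (A : V → V → Prop) (L : Multiset (List V)) (P : List V) (t : V) : Prop :=
  ∃ Q ∈ L, Q ≠ P ∧ ∃ (X Y : List V) (w w' : V), Q = X ++ w :: w' :: Y ∧ A t w ∧ A t w'

private theorem M2_end {V : Type*} {A : V → V → Prop} {P : List V} {t : V} (hn : ¬ Sp A P) (ht : IsT A P t) :
    P.head? = some t ∨ P.getLast? = some t := by
  rcases ht.2 with h | h | h
  · exact absurd h.2 hn
  · exact Or.inl h
  · exact Or.inr h

private theorem M2_nb {V : Type*} {A : V → V → Prop} {P : List V} {t : V} (hn : ¬ Sp A P) (ht : IsT A P t) :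
    ∃ s, M2Nb P t s := by
  have hl : 2 < P.length := by
    by_contra h
    exact hn (Or.inl (by omega))
  rcases M2_end hn ht with h | h
  · rcases P with _ | ⟨a, _ | ⟨b, Z⟩⟩
    · simp at hl
    · simp at hl
    · simp only [List.head?_cons, Option.some.injEq] at h
      subst h
      exact ⟨b, Z, Or.inl rfl⟩
  · have h1 : P.reverse.head? = some t := by rw [List.head?_reverse]; exact h
    have h2 : 2 < P.reverse.length := by rw [List.length_reverse]; exact hl
    rcases hP : P.reverse with _ | ⟨a, _ | ⟨b, Z⟩⟩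
    · rw [hP] at h2; simp at h2
    · rw [hP] at h2; simp at h2
    · rw [hP] at h1
      simp only [List.head?_cons, Option.some.injEq] at h1
      subst h1
      exact ⟨b, Z, Or.inr hP⟩

private theorem M2_form {V : Type*} {A : V → V → Prop} (hs : ∀ u v, A u v → A v u) {P : List V} (hc : P.IsChain A)
    {t s : V} (h : M2Nb P t s) : ∃ Z : List V, ((t :: s :: Z : List V) : Multiset V) = (P : Multiset V) ∧
      (t :: s :: Z).IsChain A := by
  obtain ⟨Z, h | h⟩ := h
  · exact ⟨Z, by rw [h], h ▸ hc⟩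
  · refine ⟨Z, ?_, ?_⟩
    · rw [← h]; exact Multiset.coe_eq_coe.2 (List.reverse_perm P)
    · rw [← h, List.isChain_reverse]
      exact hc.imp fun a b hab => hs a b hab

private theorem M2_nb_adj {V : Type*} {A : V → V → Prop} (hs : ∀ u v, A u v → A v u) {P : List V} (hc : P.IsChain A)
    {t s : V} (h : M2Nb P t s) : A t s ∧ s ∈ P := by
  obtain ⟨Z, h1, h2⟩ := M2_form hs hc h
  refine ⟨(List.isChain_cons_cons.1 h2).1, ?_⟩
  have h3 : s ∈ (t :: s :: Z) := by simp
  exact (Multiset.coe_eq_coe.1 h1).mem_iff.1 h3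

private theorem M2_noadj {V : Type*} {A : V → V → Prop} (hs : ∀ u v, A u v → A v u) {L : Multiset (List V)}
    (hL : MinC A L) {Q : List V} (hQ : Q ∈ L) {u s : V} (hu : M2Nb Q u s) {Q' : List V} (hQ' : Q' ∈ L)
    (hne : Q' ≠ Q) {X Y : List V} {w w' : V} (he : Q' = X ++ w :: w' :: Y) (h1 : A u w) (h2 : A u w')
    {R : List V} {t : V} (hR : R ∈ L) (hRQ : R ≠ Q) (ht : IsT A R t) : ¬ A t s := by
  obtain ⟨Z, h3, h4⟩ := M2_form hs (hL.1 Q hQ).2 hu
  have hTu : Tm A Q u := ⟨s :: Z, h3, h4⟩
  by_cases hRQ' : R = Q'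
  · have hm2 : MinC A {Q, Q'} := hL.mono (pair_le hQ hQ' (Ne.symm hne))
    have hnS : ¬ Sp A Q' := by
      rintro (hl | hc)
      · have hT : Tm A Q' w := by
          have h5 : Q' = [w, w'] := by
            rw [he] at hl ⊢
            simp only [List.length_append, List.length_cons] at hl
            have hX : X = [] := List.length_eq_zero_iff.1 (by omega)
            have hY : Y = [] := List.length_eq_zero_iff.1 (by omega)
            rw [hX, hY]; rfl
          refine Tm.head (hL.1 Q' hQ').2 ?_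
          rw [h5]; rfl
        exact e1 hs hm2 hTu hT h1
      · have hw : w ∈ Q' := by rw [he]; simp
        exact e4 hs hm2 hTu hc hw h1
    rw [hRQ'] at ht
    have hends := M2_end hnS ht
    have hm3 : MinC A {u :: s :: Z, Q'} := MinC.repl (L := {Q'}) hm2 h3 h4
    rw [he] at hm3 hends
    exact e5b hs hm3 h1 h2 hends
  · have hm : MinC A {Q, Q', R} := hL.mono (triple_le hQ hQ' hR (Ne.symm hne) (Ne.symm hRQ) (Ne.symm hRQ'))
    have hm3 : MinC A {u :: s :: Z, Q', R} := MinC.repl (L := {Q', R}) hm h3 h4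
    rw [he] at hm3
    exact e5a hs hm3 h1 h2 (isT_tm hs (hL.1 R hR).1 (hL.1 R hR).2 ht)

private theorem M2_two {V : Type*} [Fintype V] [DecidableEq V] {A : V → V → Prop} {y : V → V → ℝ} (h : FH A y)
    (t a b : V) (hab : a ≠ b) : y t a + y t b ≤ 2 := by
  have h1 := Finset.sum_le_sum_of_subset_of_nonneg (f := fun w => y t w) (Finset.subset_univ ({a, b} : Finset V))
    (fun i _ _ => h.nonneg t i)
  rw [h.deg t, Finset.sum_pair hab] at h1
  exact h1

private theorem M2_three {V : Type*} [Fintype V] [DecidableEq V] {A : V → V → Prop} {y : V → V → ℝ} (h : FH A y)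
    (t a b c : V) (hab : a ≠ b) (hac : a ≠ c) (hbc : b ≠ c) : y t a + y t b + y t c ≤ 2 := by
  have h1 := Finset.sum_le_sum_of_subset_of_nonneg (f := fun w => y t w) (Finset.subset_univ ({a, b, c} : Finset V))
    (fun i _ _ => h.nonneg t i)
  rw [h.deg t, Finset.sum_insert (by simp [hab, hac]), Finset.sum_pair hbc] at h1
  linarith

private theorem M2_out2 {V : Type*} [Fintype V] [DecidableEq V] {A : V → V → Prop} {y : V → V → ℝ} (h : FH A y)
    (P : List V) (t a b : V) (hab : a ≠ b) (ha : a ∉ P) (hb : b ∉ P) : y t a + y t b ≤ out y P t := by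
  have hsub : ({a, b} : Finset V) ⊆ univ.filter (fun w => w ∉ P) := by
    intro x hx
    rw [Finset.mem_filter]
    refine ⟨Finset.mem_univ _, ?_⟩
    rcases Finset.mem_insert.1 hx with rfl | hx
    · exact ha
    · rw [Finset.mem_singleton] at hx; rw [hx]; exact hb
  have h1 := Finset.sum_le_sum_of_subset_of_nonneg (f := fun w => y t w) hsub (fun i _ _ => h.nonneg t i)
  rw [Finset.sum_pair hab] at h1
  exact h1

private theorem M2_out0 {V : Type*} [Fintype V] [DecidableEq V] {A : V → V → Prop} {y : V → V → ℝ} (h : FH A y)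
    (P : List V) (t : V) : 0 ≤ out y P t := Finset.sum_nonneg fun w _ => h.nonneg t w

private theorem M2_min (o : ℝ) (ho : 0 ≤ o) : o / max 1 o = min 1 o := by
  rcases le_total 1 o with h | h
  · rw [max_eq_right h, min_eq_left h, div_self (by linarith)]
  · rw [max_eq_left h, min_eq_right h, div_one]

open Classical in
/-- The mass function. -/
private noncomputable def M2m {V : Type*} [Fintype V] [DecidableEq V] (A : V → V → Prop) (y : V → V → ℝ)
    (L : Multiset (List V)) (pt : V → List V) (nb : V → V) (t w : V) : ℝ :=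
  if IsT A (pt t) t then
    if (pt t).length = 1 then y t w
    else if Sp A (pt t) then (if w ∈ pt t then 0 else y t w / max 1 (out y (pt t) t))
    else if M2DC A L (pt t) t then (if w = nb t then 1 else y t w / (2 - y t (nb t)))
    else y t w
  else 0

section

variable {V : Type*} [Fintype V] [DecidableEq V] {A : V → V → Prop} {y : V → V → ℝ} {L : Multiset (List V)}
  {pt : V → List V} {nb : V → V} {t w : V}

private theorem M2_v1 (h1 : IsT A (pt t) t) (h2 : (pt t).length = 1) : M2m A y L pt nb t w = y t w := by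
  unfold M2m
  rw [if_pos h1, if_pos h2]

private theorem M2_v2a (h1 : IsT A (pt t) t) (h2 : (pt t).length ≠ 1) (h3 : Sp A (pt t)) (h4 : w ∈ pt t) :
    M2m A y L pt nb t w = 0 := by
  unfold M2m
  rw [if_pos h1, if_neg h2, if_pos h3, if_pos h4]

private theorem M2_v2b (h1 : IsT A (pt t) t) (h2 : (pt t).length ≠ 1) (h3 : Sp A (pt t)) (h4 : w ∉ pt t) :
    M2m A y L pt nb t w = y t w / max 1 (out y (pt t) t) := by
  unfold M2m
  rw [if_pos h1, if_neg h2, if_pos h3, if_neg h4]

private theorem M2_len {P : List V} (h : ¬ Sp A P) : P.length ≠ 1 := by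
  intro h1
  exact h (Or.inl (by omega))

private theorem M2_v3a (h1 : IsT A (pt t) t) (h3 : ¬ Sp A (pt t)) (h4 : M2DC A L (pt t) t) (h5 : w = nb t) :
    M2m A y L pt nb t w = 1 := by
  unfold M2m
  rw [if_pos h1, if_neg (M2_len h3), if_neg h3, if_pos h4, if_pos h5]

private theorem M2_v3b (h1 : IsT A (pt t) t) (h3 : ¬ Sp A (pt t)) (h4 : M2DC A L (pt t) t) (h5 : w ≠ nb t) :
    M2m A y L pt nb t w = y t w / (2 - y t (nb t)) := by
  unfold M2m
  rw [if_pos h1, if_neg (M2_len h3), if_neg h3, if_pos h4, if_neg h5]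

private theorem M2_v4 (h1 : IsT A (pt t) t) (h3 : ¬ Sp A (pt t)) (h4 : ¬ M2DC A L (pt t) t) :
    M2m A y L pt nb t w = y t w := by
  unfold M2m
  rw [if_pos h1, if_neg (M2_len h3), if_neg h3, if_neg h4]

private theorem M2_v0 (h1 : ¬ IsT A (pt t) t) : M2m A y L pt nb t w = 0 := by
  unfold M2m
  rw [if_neg h1]

private theorem M2_nonneg (h : FH A y) : 0 ≤ M2m A y L pt nb t w := by
  by_cases h1 : IsT A (pt t) t
  · by_cases h2 : (pt t).length = 1
    · rw [M2_v1 h1 h2]; exact h.nonneg t w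
    · by_cases h3 : Sp A (pt t)
      · by_cases h4 : w ∈ pt t
        · rw [M2_v2a h1 h2 h3 h4]
        · rw [M2_v2b h1 h2 h3 h4]
          exact div_nonneg (h.nonneg t w) (le_trans zero_le_one (le_max_left _ _))
      · by_cases h4 : M2DC A L (pt t) t
        · by_cases h5 : w = nb t
          · rw [M2_v3a h1 h3 h4 h5]; exact zero_le_one
          · rw [M2_v3b h1 h3 h4 h5]
            exact div_nonneg (h.nonneg t w) (by linarith [le_one h t (nb t)])
        · rw [M2_v4 h1 h3 h4]; exact h.nonneg t w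
  · rw [M2_v0 h1]

private theorem M2_le_y (h : FH A y) (hno : ¬ (IsT A (pt t) t ∧ ¬ Sp A (pt t) ∧ M2DC A L (pt t) t ∧ w = nb t)) :
    M2m A y L pt nb t w ≤ y t w := by
  have hy := h.nonneg t w
  by_cases h1 : IsT A (pt t) t
  · by_cases h2 : (pt t).length = 1
    · rw [M2_v1 h1 h2]
    · by_cases h3 : Sp A (pt t)
      · by_cases h4 : w ∈ pt t
        · rw [M2_v2a h1 h2 h3 h4]; exact hy
        · rw [M2_v2b h1 h2 h3 h4]
          exact div_le_self hy (le_max_left _ _)
      · by_cases h4 : M2DC A L (pt t) t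
        · by_cases h5 : w = nb t
          · exact absurd ⟨h1, h3, h4, h5⟩ hno
          · rw [M2_v3b h1 h3 h4 h5]
            exact div_le_self hy (by linarith [le_one h t (nb t)])
        · rw [M2_v4 h1 h3 h4]
  · rw [M2_v0 h1]; exact hy

private theorem M2_le1 (h : FH A y) (h1 : IsT A (pt t) t) (h3 : ¬ Sp A (pt t)) : M2m A y L pt nb t w ≤ 1 := by
  by_cases h4 : M2DC A L (pt t) t
  · by_cases h5 : w = nb t
    · rw [M2_v3a h1 h3 h4 h5]
    · rw [M2_v3b h1 h3 h4 h5]
      rw [div_le_one (by linarith [le_one h t (nb t)])]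
      linarith [M2_two h t w (nb t) h5]
  · rw [M2_v4 h1 h3 h4]; exact le_one h t w

private theorem M2_tot (h : FH A y) (h1 : IsT A (pt t) t) (h3 : ¬ Sp A (pt t)) :
    ∑ w, M2m A y L pt nb t w = 2 := by
  by_cases h4 : M2DC A L (pt t) t
  · have hpos : (0 : ℝ) < 2 - y t (nb t) := by linarith [le_one h t (nb t)]
    rw [← Finset.add_sum_erase Finset.univ _ (Finset.mem_univ (nb t)), M2_v3a h1 h3 h4 rfl]
    have e1 : ∑ w ∈ Finset.univ.erase (nb t), M2m A y L pt nb t w =
        ∑ w ∈ Finset.univ.erase (nb t), y t w / (2 - y t (nb t)) :=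
      Finset.sum_congr rfl fun w hw => M2_v3b h1 h3 h4 (Finset.ne_of_mem_erase hw)
    have e2 : ∑ w ∈ Finset.univ.erase (nb t), y t w = 2 - y t (nb t) := by
      have e3 := Finset.add_sum_erase Finset.univ (fun w => y t w) (Finset.mem_univ (nb t))
      rw [h.deg t] at e3
      linarith
    rw [e1, ← Finset.sum_div, e2, div_self hpos.ne']
    norm_num
  · rw [Finset.sum_congr rfl fun w _ => M2_v4 h1 h3 h4]
    exact h.deg t

private theorem M2_spsum (h : FH A y) (h1 : IsT A (pt t) t) (h2 : (pt t).length ≠ 1) (h3 : Sp A (pt t)) :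
    ∑ w, M2m A y L pt nb t w = min 1 (out y (pt t) t) := by
  rw [← M2_min _ (M2_out0 h (pt t) t)]
  have e1 := Finset.sum_filter_add_sum_filter_not (Finset.univ : Finset V) (fun w => w ∉ pt t)
    (fun w => M2m A y L pt nb t w)
  rw [← e1]
  have e2 : ∑ w ∈ Finset.univ.filter (fun w => w ∉ pt t), M2m A y L pt nb t w =
      ∑ w ∈ Finset.univ.filter (fun w => w ∉ pt t), y t w / max 1 (out y (pt t) t) :=
    Finset.sum_congr rfl fun w hw => M2_v2b h1 h2 h3 (Finset.mem_filter.1 hw).2
  have e3 : ∑ w ∈ Finset.univ.filter (fun w => ¬ w ∉ pt t), M2m A y L pt nb t w = 0 :=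
    Finset.sum_eq_zero fun w hw => M2_v2a h1 h2 h3 (not_not.1 (Finset.mem_filter.1 hw).2)
  rw [e2, e3, add_zero, ← Finset.sum_div]
  rfl

end

theorem mass {V : Type*} [Fintype V] [DecidableEq V] {A : V → V → Prop} {y : V → V → ℝ} (h : FH A y)
    {L : Multiset (List V)} (hL : MinC A L) (hv : vs L = (univ : Finset V).val) (h2 : 2 ≤ L.card)
    (hg : ∀ P ∈ L, Good4 A y P) : ∃ m : V → V → ℝ, Mass A L m := by
  classical
  have hs := h.adjSymm
  have hex : ∀ t, ∃ P ∈ L, t ∈ P := by
    intro t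
    refine mem_vs.1 ?_
    rw [hv]
    exact Finset.mem_univ t
  choose pt hptL hptm using hex
  have hpt : ∀ P ∈ L, ∀ t ∈ P, pt t = P := fun P hP t ht => eq_of_mem hL.2.1 (hptL t) hP (hptm t) ht
  have hpT : ∀ P ∈ L, ∀ t, IsT A P t → pt t = P := fun P hP t ht => hpt P hP t ht.1
  have hnb0 : ∀ t, ∃ s, IsT A (pt t) t → ¬ Sp A (pt t) → M2Nb (pt t) t s := by
    intro t
    by_cases h1 : IsT A (pt t) t ∧ ¬ Sp A (pt t)
    · obtain ⟨s, hs'⟩ := M2_nb h1.2 h1.1
      exact ⟨s, fun _ _ => hs'⟩
    · exact ⟨t, fun h2 h3 => absurd ⟨h2, h3⟩ h1⟩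
  choose nb hnb using hnb0
  have hTT : ∀ t, t ∈ TT A L → IsT A (pt t) t := by
    intro t ht
    unfold TT at ht
    obtain ⟨P, hP, hT⟩ := (Finset.mem_filter.1 ht).2
    rw [hpT P hP t hT]
    exact hT
  have hadj : ∀ t w, M2m A y L pt nb t w ≠ 0 → A t w := by
    intro t w hne
    by_contra hA
    have hy := h.supp t w hA
    apply hne
    by_cases h1 : IsT A (pt t) t
    · by_cases h5 : ¬ Sp A (pt t) ∧ M2DC A L (pt t) t ∧ w = nb t
      · exfalso
        apply hA
        rw [h5.2.2]
        exact (M2_nb_adj hs (hL.1 _ (hptL t)).2 (hnb t h1 h5.1)).1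
      · refine le_antisymm ?_ (M2_nonneg h)
        rw [← hy]
        exact M2_le_y h fun h6 => h5 h6.2
    · exact M2_v0 h1
  have hv' : ∀ P ∈ L, ∃ v, v ∉ P := by
    intro P hP
    obtain ⟨R, rfl⟩ := Multiset.exists_cons_of_mem hP
    rw [Multiset.card_cons] at h2
    obtain ⟨Q, hQ⟩ := Multiset.card_pos_iff_exists_mem.1 (by omega : 0 < R.card)
    have hQL : Q ∈ P ::ₘ R := Multiset.mem_cons_of_mem hQ
    obtain ⟨v, hvQ⟩ := List.exists_mem_of_ne_nil Q (hL.1 Q hQL).1
    refine ⟨v, fun hvP => ?_⟩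
    have h3 := hL.2.1
    rw [vs_cons] at h3
    exact Multiset.disjoint_left.1 (Multiset.nodup_add.1 h3).2.2 hvP (mem_vs.2 ⟨Q, hQ, hvQ⟩)
  refine ⟨M2m A y L pt nb, ⟨fun t w => M2_nonneg h, fun P hP t ht w hne => hadj t w hne, ?_, ?_, ?_, ?_, ?_, ?_⟩⟩
  · intro P hP hS t ht w hw
    have e := hpT P hP t ht
    subst e
    by_cases h1 : (pt t).length = 1
    · rw [M2_v1 ht h1]
      obtain ⟨x, hx⟩ := List.length_eq_one_iff.1 h1
      have h3 := ht.1
      rw [hx, List.mem_singleton] at hw h3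
      rw [hw, ← h3]
      exact h.supp t t (h.adjIrrefl t)
    · exact M2_v2a ht h1 hS hw
  · intro P hP hS t ht
    have e := hpT P hP t ht
    subst e
    exact M2_tot h ht hS
  · intro P hP hS
    have hTP : ∀ t, t ∈ TT A {P} → IsT A P t := by
      intro t ht
      unfold TT at ht
      obtain ⟨P', hP', hT⟩ := (Finset.mem_filter.1 ht).2
      rw [Multiset.mem_singleton] at hP'
      rw [hP'] at hT
      exact hT
    by_cases h1 : P.length = 1
    · obtain ⟨x, hx⟩ := List.length_eq_one_iff.1 h1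
      have hx1 : IsT A P x := ⟨by rw [hx]; simp, Or.inl ⟨by omega, hS⟩⟩
      have hx2 : x ∈ TT A {P} := by
        unfold TT
        exact Finset.mem_filter.2 ⟨Finset.mem_univ _, P, Multiset.mem_singleton_self P, hx1⟩
      have e := hpT P hP x hx1
      have h3 : ∑ w, M2m A y L pt nb x w = 2 := by
        rw [Finset.sum_congr rfl fun w _ => M2_v1 (e.symm ▸ hx1) (e.symm ▸ h1)]
        exact h.deg x
      have h4 := Finset.single_le_sum (f := fun t => ∑ w, M2m A y L pt nb t w)
        (fun t _ => Finset.sum_nonneg fun w _ => M2_nonneg h) hx2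
      simp only [h3] at h4
      refine le_trans (le_of_eq ?_) h4
      unfold need
      rw [if_pos (by omega)]
    · have h3 := sp_need h (hL.1 P hP) (nodup_of_mem hL.2.1 hP) (hv' P hP) h1 hS (hg P hP)
      refine h3.trans (le_of_eq (Finset.sum_congr rfl fun t ht => ?_))
      have hT := hTP t ht
      have e := hpT P hP t hT
      subst e
      exact (M2_spsum h hT h1 hS).symm
  · intro P hP hS t ht w
    have e := hpT P hP t ht
    subst e
    exact M2_le1 h ht hS
  · intro Q hQ hS w hw hwT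
    by_cases hbad : ∃ t ∈ TT A L, IsT A (pt t) t ∧ ¬ Sp A (pt t) ∧ M2DC A L (pt t) t ∧ w = nb t
    · obtain ⟨u, hu, huT, huS, ⟨Q', hQ', hne, X, Y, z, z', he, hz, hz'⟩, hwu⟩ := hbad
      have hnbu := hnb u huT huS
      have hptu : pt u = Q := by
        have h3 := (M2_nb_adj hs (hL.1 _ (hptL u)).2 hnbu).2
        rw [← hwu] at h3
        exact eq_of_mem hL.2.1 (hptL u) hQ h3 hw
      rw [hptu] at hnbu hne
      rw [← hwu] at hnbu
      have hfor : ∀ t ∈ TT A L, pt t ≠ Q → M2m A y L pt nb t w = 0 := by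
        intro t ht hne'
        by_contra h0
        exact M2_noadj hs hL hQ hnbu hQ' hne he hz hz' (hptL t) hne' (hTT t ht) (hadj t w h0)
      have e1 : ∑ t ∈ TT A L, M2m A y L pt nb t w =
          ∑ t ∈ (TT A L).filter (fun t => pt t = Q), M2m A y L pt nb t w := by
        rw [Finset.sum_filter]
        refine Finset.sum_congr rfl fun t ht => ?_
        by_cases h3 : pt t = Q
        · rw [if_pos h3]
        · rw [if_neg h3, hfor t ht h3]
      rw [e1]
      have hle : ∀ t ∈ (TT A L).filter (fun t => pt t = Q), M2m A y L pt nb t w ≤ 1 := by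
        intro t ht
        obtain ⟨h3, h4⟩ := Finset.mem_filter.1 ht
        exact M2_le1 h (hTT t h3) (h4.symm ▸ hS)
      have hcard : ((TT A L).filter (fun t => pt t = Q)).card ≤ 2 := by
        obtain ⟨v, hvw⟩ := List.exists_mem_of_ne_nil Q (hL.1 Q hQ).1
        obtain ⟨a, ha⟩ : ∃ a, Q.head? = some a := by
          rcases hQ0 : Q with _ | ⟨a, Q0⟩
          · exact absurd hQ0 (hL.1 Q hQ).1
          · exact ⟨a, rfl⟩
        obtain ⟨b, hb⟩ : ∃ b, Q.getLast? = some b := by
          refine ⟨Q.getLast (hL.1 Q hQ).1, ?_⟩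
          exact List.getLast?_eq_getLast_of_ne_nil (hL.1 Q hQ).1
        refine (Finset.card_le_card (?_ : _ ⊆ ({a, b} : Finset V))).trans Finset.card_le_two
        intro t ht
        obtain ⟨h3, h4⟩ := Finset.mem_filter.1 ht
        have h5 := hTT t h3
        rw [h4] at h5
        rcases M2_end hS h5 with h6 | h6
        · rw [ha] at h6
          rw [← Option.some.inj h6]
          exact Finset.mem_insert_self _ _
        · rw [hb] at h6
          rw [← Option.some.inj h6]
          exact Finset.mem_insert_of_mem (Finset.mem_singleton_self _)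
      have h5 := Finset.sum_le_card_nsmul _ _ 1 hle
      rw [nsmul_eq_mul, mul_one] at h5
      refine h5.trans ?_
      exact_mod_cast hcard
    · push Not at hbad
      have h3 : ∑ t ∈ TT A L, M2m A y L pt nb t w ≤ ∑ t ∈ TT A L, y t w :=
        Finset.sum_le_sum fun t ht => M2_le_y h fun h4 => hbad t ht h4.1 h4.2.1 h4.2.2.1 h4.2.2.2
      refine h3.trans ?_
      have h4 := Finset.sum_le_sum_of_subset_of_nonneg (f := fun t => y t w) (Finset.subset_univ (TT A L))
        (fun i _ _ => h.nonneg i w)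
      refine h4.trans (le_of_eq ?_)
      rw [← h.deg w]
      exact Finset.sum_congr rfl fun t _ => h.symm t w
  · intro P hP Q hQ hne hl t ht X Y w w' he hw hw'
    have e := hpT P hP t ht
    subst e
    have hwQ : w ∈ Q := by rw [he]; simp
    have hwQ' : w' ∈ Q := by rw [he]; simp
    have hwP : w ∉ pt t := fun h3 => hne (eq_of_mem hL.2.1 hP hQ h3 hwQ)
    have hwP' : w' ∉ pt t := fun h3 => hne (eq_of_mem hL.2.1 hP hQ h3 hwQ')
    have hww : w ≠ w' := by
      have h3 := nodup_of_mem hL.2.1 hQ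
      rw [he] at h3
      have h4 := (List.nodup_append.1 h3).2.1
      rw [List.nodup_cons] at h4
      intro h5
      exact h4.1 (by rw [h5]; simp)
    by_cases hS : Sp A (pt t)
    · rw [M2_v2b ht hl hS hwP, M2_v2b ht hl hS hwP', ← add_div]
      rw [div_le_one (lt_of_lt_of_le zero_lt_one (le_max_left _ _))]
      exact (M2_out2 h (pt t) t w w' hww hwP hwP').trans (le_max_right _ _)
    · have hDC : M2DC A L (pt t) t := ⟨Q, hQ, Ne.symm hne, X, Y, w, w', he, hw, hw'⟩
      have hnbP := (M2_nb_adj hs (hL.1 _ hP).2 (hnb t ht hS)).2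
      have n1 : w ≠ nb t := fun h3 => hwP (h3 ▸ hnbP)
      have n2 : w' ≠ nb t := fun h3 => hwP' (h3 ▸ hnbP)
      rw [M2_v3b ht hS hDC n1, M2_v3b ht hS hDC n2, ← add_div]
      rw [div_le_one (by linarith [le_one h t (nb t)])]
      linarith [M2_three h t w w' (nb t) hww n1 n2]

end H80Q
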