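import Pool.Agent.Lib.H80Q.A2
import Pool.Agent.Lib.H80Q.C1
import Pool.Agent.Lib.H80Q.G1
import Pool.Agent.Lib.H80Q.M2

/-!
# H80Q, file F1: the theorem
-/

set_option autoImplicit false

namespace H80Q

open Finset

theorem opt_exists {V : Type*} [Fintype V] [DecidableEq V] {A : V → V → Prop} :
    ∃ L : Multiset (List V), Opt A L ∧ vs L = (univ : Finset V).val := by
  classical
  have h0 : ∃ k, ∃ L : Multiset (List V), Pth A L ∧ vs L = (univ : Finset V).val ∧ L.card = k := by
    refine ⟨_, (univ : Finset V).val.map (fun v => [v]), ?_, ?_, rfl⟩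
    · intro l hl
      obtain ⟨v, _, rfl⟩ := Multiset.mem_map.1 hl
      exact ⟨by simp, List.isChain_singleton v⟩
    · have h1 : ∀ s : Multiset V, vs (s.map (fun v => [v])) = s := by
        intro s
        induction s using Multiset.induction_on with
        | empty => simp [vs_zero]
        | cons v s ih =>
          rw [Multiset.map_cons, vs_cons, ih]
          simp
      exact h1 _
  obtain ⟨L0, a1, a2, a3⟩ := Nat.find_spec h0
  have h1 : ∃ j, ∃ L : Multiset (List V), Pth A L ∧ vs L = (univ : Finset V).val ∧ L.card = Nat.find h0 ∧ qs L = j :=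
    ⟨_, L0, a1, a2, a3, rfl⟩
  obtain ⟨L, b1, b2, b3, b4⟩ := Nat.find_spec h1
  refine ⟨L, ⟨⟨b1, ?_, ?_⟩, ?_⟩, b2⟩
  · rw [b2]
    exact (univ : Finset V).nodup
  · intro L' c1 c2
    rw [b3]
    exact Nat.find_min' h0 ⟨L', c1, c2.trans b2, rfl⟩
  · intro L' c1 c2 c3
    rw [b4]
    exact Nat.find_min' h1 ⟨L', c1, c2.trans b2, c3.trans b3, rfl⟩

private theorem f1_need_nonneg {V : Type*} {P : List V} (h : P.length ≤ 5) : 0 ≤ need P := by
  unfold need
  split_ifs
  · norm_num
  · have : (P.length : ℝ) ≤ 5 := by exact_mod_cast h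
    linarith

private theorem f1_sum_nonneg {V : Type*} (D : Multiset (List V)) (h : ∀ P ∈ D, P.length ≤ 5) :
    0 ≤ (D.map need).sum := by
  refine Multiset.sum_nonneg ?_
  intro x hx
  obtain ⟨P, hP, rfl⟩ := Multiset.mem_map.1 hx
  exact f1_need_nonneg (h P hP)

/-- A graph with a fractional Hamiltonian cycle has a Hamiltonian path or a path cover with at most `n / 5` paths. -/
theorem main {V : Type*} [Fintype V] [DecidableEq V] {A : V → V → Prop} {y : V → V → ℝ} (h : FH A y) :
    ∃ L : Multiset (List V), Pth A L ∧ vs L = (univ : Finset V).val ∧ (L.card ≤ 1 ∨ 5 * L.card ≤ Fintype.card V) := by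
  obtain ⟨L, hO, hv⟩ := opt_exists (A := A)
  by_cases h2 : 2 ≤ L.card
  · obtain ⟨L', hO', hv', hc', hg⟩ := good_cover h hO h2
    have hvu : vs L' = (univ : Finset V).val := hv'.trans hv
    obtain ⟨m, hm⟩ := mass h hO'.1 hvu (by omega) hg
    have hall : ∀ v, v ∈ vs L' := by
      intro v
      rw [hvu]
      exact Finset.mem_univ v
    have h3 : ∀ P ∈ L', 3 ≤ P.length := by
      intro P hP
      by_contra hlt
      have hle : P.length ≤ 2 := by omega
      obtain ⟨D, hD, hBD, hD2, hcl⟩ := closure h.adjSymm hO' hall hP hle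
      have hs := closed_sum h hO'.1 hm hD hcl
      obtain ⟨D', rfl⟩ := Multiset.exists_cons_of_mem hBD
      rw [Multiset.map_cons, Multiset.sum_cons] at hs
      have h4 : need P = 2 := by
        unfold need
        rw [if_pos hle]
      have h5 : 0 ≤ (D'.map need).sum := by
        refine f1_sum_nonneg D' fun Q hQ => ?_
        rcases hD2 Q (Multiset.mem_cons_of_mem hQ) with rfl | h6
        · omega
        · exact h6.2
      rw [h4] at hs
      linarith
    have hs := closed_sum h hO'.1 hm le_rfl (fun P _ t _ w _ => hall w)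
    have h4 : L'.map need = L'.map (fun P => (5 : ℝ) - (P.length : ℝ)) := by
      refine Multiset.map_congr rfl fun P hP => ?_
      unfold need
      rw [if_neg (by have := h3 P hP; omega)]
    have h5 : (L'.map (fun P => (P.length : ℝ))).sum = Fintype.card V := by
      have h6 := sum_vs L' (fun _ => (1 : ℝ))
      rw [hvu] at h6
      simp only [Multiset.map_const', Multiset.sum_replicate, List.map_const', List.sum_replicate, nsmul_eq_mul,
        mul_one] at h6
      rw [← h6]
      exact_mod_cast rfl
    rw [h4, Multiset.sum_map_sub, h5] at hs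
    simp only [Multiset.map_const', Multiset.sum_replicate, nsmul_eq_mul] at hs
    refine ⟨L', hO'.1.1, hvu, Or.inr ?_⟩
    have h7 : (5 : ℝ) * L'.card ≤ Fintype.card V := by linarith
    exact_mod_cast h7
  · exact ⟨L, hO.1.1, hv, Or.inl (by omega)⟩

end H80Q
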