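import Pool.Agent.Lib.H80Q.D

/-!
# H80Q, file X0: elementary facts about path covers
-/

set_option autoImplicit false

namespace H80Q

open Finset

theorem vs_zero {V : Type*} : vs (0 : Multiset (List V)) = 0 := by
  simp [vs]

theorem vs_cons {V : Type*} (P : List V) (L : Multiset (List V)) : vs (P ::ₘ L) = (P : Multiset V) + vs L := by
  simp [vs]

theorem vs_add {V : Type*} (L L' : Multiset (List V)) : vs (L + L') = vs L + vs L' := by
  simp [vs]

theorem mem_vs {V : Type*} {L : Multiset (List V)} {v : V} : v ∈ vs L ↔ ∃ l ∈ L, v ∈ l := by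
  induction L using Multiset.induction_on with
  | empty => simp [vs_zero]
  | cons P L ih => simp [vs_cons, ih]

theorem sum_vs {V : Type*} (L : Multiset (List V)) (f : V → ℝ) :
    ((vs L).map f).sum = (L.map (fun l => (l.map f).sum)).sum := by
  induction L using Multiset.induction_on with
  | empty => simp [vs_zero]
  | cons P L ih => simp [vs_cons, ih]

theorem Pth.cons {V : Type*} {A : V → V → Prop} {P : List V} {L : Multiset (List V)} (h1 : P ≠ []) (h2 : P.IsChain A)
    (h : Pth A L) : Pth A (P ::ₘ L) := by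
  intro l hl
  rcases Multiset.mem_cons.1 hl with rfl | hl
  · exact ⟨h1, h2⟩
  · exact h l hl

private theorem x0_pth_add {V : Type*} {A : V → V → Prop} {L S : Multiset (List V)} (h1 : Pth A L) (h2 : Pth A S) :
    Pth A (L + S) := by
  intro l hl
  rcases Multiset.mem_add.1 hl with hl | hl
  · exact h1 l hl
  · exact h2 l hl

theorem MinC.mono {V : Type*} {A : V → V → Prop} {L S : Multiset (List V)} (h : MinC A L) (hS : S ≤ L) :
    MinC A S := by
  obtain ⟨R, rfl⟩ := Multiset.le_iff_exists_add.1 hS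
  obtain ⟨h1, h2, h3⟩ := h
  have hR : Pth A R := fun l hl => h1 l (Multiset.mem_add.2 (Or.inr hl))
  refine ⟨fun l hl => h1 l (Multiset.mem_add.2 (Or.inl hl)), ?_, ?_⟩
  · rw [vs_add] at h2
    exact (Multiset.nodup_add.1 h2).1
  · intro L' hL' hv
    have := h3 (L' + R) (x0_pth_add hL' hR) (by rw [vs_add, vs_add, hv])
    rw [Multiset.card_add, Multiset.card_add] at this
    omega

theorem Opt.mono {V : Type*} {A : V → V → Prop} {L S : Multiset (List V)} (h : Opt A L) (hS : S ≤ L) :
    Opt A S := by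
  obtain ⟨R, rfl⟩ := Multiset.le_iff_exists_add.1 hS
  refine ⟨h.1.mono hS, ?_⟩
  intro L' hL' hv hc
  have hR : Pth A R := fun l hl => h.1.1 l (Multiset.mem_add.2 (Or.inr hl))
  have := h.2 (L' + R) (x0_pth_add hL' hR) (by rw [vs_add, vs_add, hv]) (by
    rw [Multiset.card_add, Multiset.card_add, hc])
  unfold qs at this ⊢
  rw [Multiset.countP_add, Multiset.countP_add] at this
  omega

theorem MinC.congr {V : Type*} {A : V → V → Prop} {L L' : Multiset (List V)} (h : MinC A L) (h1 : Pth A L')
    (h2 : vs L' = vs L) (h3 : L'.card = L.card) : MinC A L' := by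
  refine ⟨h1, h2 ▸ h.2.1, ?_⟩
  intro L'' h4 h5
  rw [h3]
  exact h.2.2 L'' h4 (h5.trans h2)

/-- the first path may be replaced by another path on the same vertices -/
theorem MinC.repl {V : Type*} {A : V → V → Prop} {L : Multiset (List V)} {P P' : List V} (h : MinC A (P ::ₘ L))
    (h1 : (P' : Multiset V) = P) (h2 : P'.IsChain A) : MinC A (P' ::ₘ L) := by
  refine h.congr ?_ (by rw [vs_cons, vs_cons, h1]) (by simp)
  refine Pth.cons ?_ h2 (fun l hl => h.1 l (Multiset.mem_cons_of_mem hl))
  rintro rfl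
  have h3 := (h.1 P (Multiset.mem_cons_self _ _)).1
  apply h3
  have : (P : Multiset V) = 0 := by rw [← h1]; rfl
  simpa using this

theorem eq_of_mem {V : Type*} {L : Multiset (List V)} (h : (vs L).Nodup) {P Q : List V} (hP : P ∈ L) (hQ : Q ∈ L)
    {v : V} (h1 : v ∈ P) (h2 : v ∈ Q) : P = Q := by
  obtain ⟨R, rfl⟩ := Multiset.exists_cons_of_mem hP
  rcases Multiset.mem_cons.1 hQ with rfl | hQ
  · rfl
  · rw [vs_cons] at h
    have := (Multiset.nodup_add.1 h).2.2
    exact absurd (mem_vs.2 ⟨Q, hQ, h2⟩) (Multiset.disjoint_left.1 this (by simpa using h1))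

theorem nodup_of_mem {V : Type*} {L : Multiset (List V)} (h : (vs L).Nodup) {P : List V} (hP : P ∈ L) : P.Nodup := by
  obtain ⟨R, rfl⟩ := Multiset.exists_cons_of_mem hP
  rw [vs_cons] at h
  simpa using (Multiset.nodup_add.1 h).1

theorem pair_le {V : Type*} {L : Multiset (List V)} {P Q : List V} (hP : P ∈ L) (hQ : Q ∈ L)
    (hne : P ≠ Q) : ({P, Q} : Multiset (List V)) ≤ L := by
  obtain ⟨R, rfl⟩ := Multiset.exists_cons_of_mem hP
  have hQ' : Q ∈ R := by
    rcases Multiset.mem_cons.1 hQ with rfl | hQ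
    · exact absurd rfl hne
    · exact hQ
  exact (Multiset.cons_le_cons_iff P).2 (Multiset.singleton_le.2 hQ')

theorem triple_le {V : Type*} {L : Multiset (List V)} {P Q R : List V} (hP : P ∈ L) (hQ : Q ∈ L) (hR : R ∈ L)
    (h1 : P ≠ Q) (h2 : P ≠ R) (h3 : Q ≠ R) : ({P, Q, R} : Multiset (List V)) ≤ L := by
  obtain ⟨S, rfl⟩ := Multiset.exists_cons_of_mem hP
  have hQ' : Q ∈ S := by
    rcases Multiset.mem_cons.1 hQ with rfl | hQ
    · exact absurd rfl h1
    · exact hQ
  have hR' : R ∈ S := by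
    rcases Multiset.mem_cons.1 hR with rfl | hR
    · exact absurd rfl h2
    · exact hR
  exact (Multiset.cons_le_cons_iff P).2 (pair_le hQ' hR' h3)

theorem Tm.head {V : Type*} {A : V → V → Prop} {P : List V} (h : P.IsChain A) {t : V}
    (ht : P.head? = some t) : Tm A P t := by
  cases P with
  | nil => simp at ht
  | cons p P =>
    simp only [List.head?_cons, Option.some.injEq] at ht
    subst ht
    exact ⟨P, rfl, h⟩

theorem Tm.rev_last {V : Type*} {A : V → V → Prop} (hs : ∀ u v, A u v → A v u) {P : List V} (h : P.IsChain A) {t : V}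
    (ht : P.getLast? = some t) : Tm A P t := by
  have h1 : P.reverse.IsChain A := by
    rw [List.isChain_reverse]
    exact h.imp (fun a b hab => hs _ _ hab)
  have h2 : Tm A P.reverse t := Tm.head h1 (by simpa using ht)
  obtain ⟨Z, h3, h4⟩ := h2
  exact ⟨Z, by rw [h3]; simp, h4⟩

theorem Cyc.congr {V : Type*} {A : V → V → Prop} {P P' : List V} (h : Cyc A P) (h1 : (P' : Multiset V) = P) :
    Cyc A P' := by
  obtain ⟨z, Z, z', h2, h3, h4⟩ := h
  exact ⟨z, Z, z', h2.trans h1.symm, h3, h4⟩

end H80Q
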