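import Pool.Agent.Lib.H80Q.X0

/-!
# H80Q, file X1: exchanges e1, e2, e2b
-/

set_option autoImplicit false

namespace H80Q

open Finset

private theorem x1_rev {V : Type*} {A : V → V → Prop} (hs : ∀ u v, A u v → A v u) {l : List V}
    (h : l.IsChain A) : l.reverse.IsChain A :=
  List.isChain_reverse.2 (h.imp fun a b hab => hs a b hab)

private theorem x1_vs1 {V : Type*} (P : List V) : vs ({P} : Multiset (List V)) = (P : Multiset V) := by
  simp [vs]

private theorem x1_vs2 {V : Type*} (P Q : List V) :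
    vs ({P, Q} : Multiset (List V)) = (P : Multiset V) + (Q : Multiset V) := by
  simp [vs]

private theorem x1_vs3 {V : Type*} (P Q R : List V) :
    vs ({P, Q, R} : Multiset (List V)) = (P : Multiset V) + ((Q : Multiset V) + (R : Multiset V)) := by
  simp [vs]

/-- ends of different paths are not adjacent -/
theorem e1 {V : Type*} {A : V → V → Prop} (hs : ∀ u v, A u v → A v u) {P Q : List V} (h : MinC A {P, Q}) {t t' : V}
    (ht : Tm A P t) (ht' : Tm A Q t') : ¬ A t t' := by
  intro hA
  obtain ⟨Z, hZ, hZc⟩ := ht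
  obtain ⟨Z', hZ', hZc'⟩ := ht'
  have h1 : ((t :: Z).reverse ++ (t' :: Z')).IsChain A := by
    rw [List.isChain_append]
    refine ⟨x1_rev hs hZc, hZc', ?_⟩
    intro x hx y hy
    simp only [List.reverse_cons, List.getLast?_concat, Option.mem_def, Option.some.injEq,
      List.head?_cons] at hx hy
    rw [← hx, ← hy]
    exact hA
  have h2 := h.2.2 {(t :: Z).reverse ++ (t' :: Z')} (by
    intro l hl
    rw [Multiset.mem_singleton] at hl
    rw [hl]
    exact ⟨by simp, h1⟩) (by
    rw [x1_vs1, x1_vs2, ← Multiset.coe_add, ← hZ, ← hZ', Multiset.coe_reverse])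
  simp at h2

/-- two ends of different paths are not adjacent to two consecutive vertices of a third path -/
theorem e2 {V : Type*} {A : V → V → Prop} (hs : ∀ u v, A u v → A v u) {P Q X Y : List V} {w w' t t' : V}
    (h : MinC A {P, Q, X ++ w :: w' :: Y}) (ht : Tm A P t) (ht' : Tm A Q t') : ¬ (A t w ∧ A t' w') := by
  rintro ⟨hA, hA'⟩
  obtain ⟨Z, hZ, hZc⟩ := ht
  obtain ⟨Z', hZ', hZc'⟩ := ht'
  have hc : (X ++ w :: w' :: Y).IsChain A := (h.1 _ (by simp)).2
  obtain ⟨hc1, hc2, hc3⟩ := List.isChain_append_cons_cons.1 hc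
  have h1 : ((X ++ [w]) ++ (t :: Z)).IsChain A := by
    rw [List.isChain_append]
    refine ⟨hc1, hZc, ?_⟩
    intro x hx y hy
    simp only [List.getLast?_concat, Option.mem_def, Option.some.injEq, List.head?_cons] at hx hy
    rw [← hx, ← hy]
    exact hs _ _ hA
  have h2 : ((t' :: Z').reverse ++ (w' :: Y)).IsChain A := by
    rw [List.isChain_append]
    refine ⟨x1_rev hs hZc', hc3, ?_⟩
    intro x hx y hy
    simp only [List.reverse_cons, List.getLast?_concat, Option.mem_def, Option.some.injEq,
      List.head?_cons] at hx hy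
    rw [← hx, ← hy]
    exact hA'
  have h3 := h.2.2 {(X ++ [w]) ++ (t :: Z), (t' :: Z').reverse ++ (w' :: Y)} (by
    intro l hl
    simp only [Multiset.insert_eq_cons, Multiset.mem_cons, Multiset.mem_singleton] at hl
    rcases hl with rfl | rfl
    · exact ⟨by simp, h1⟩
    · exact ⟨by simp, h2⟩) (by
    have e1 : X ++ w :: w' :: Y = (X ++ [w]) ++ (w' :: Y) := by simp
    rw [x1_vs2, x1_vs3, e1, ← hZ, ← hZ']
    simp only [← Multiset.coe_add, Multiset.coe_reverse]
    abel)
  simp at h3

/-- a path cannot be inserted between two consecutive vertices of another path -/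
theorem e2b {V : Type*} {A : V → V → Prop} (hs : ∀ u v, A u v → A v u) {P X Y : List V} {w w' t t' : V}
    (h : MinC A {P, X ++ w :: w' :: Y}) (ht : Tm2 A P t t') : ¬ (A t w ∧ A t' w') := by
  rintro ⟨hA, hA'⟩
  obtain ⟨Z, hZ, hZc, hZh, hZl⟩ := ht
  have hc : (X ++ w :: w' :: Y).IsChain A := (h.1 _ (by simp)).2
  obtain ⟨hc1, hc2, hc3⟩ := List.isChain_append_cons_cons.1 hc
  have h1 : ((X ++ [w]) ++ Z ++ (w' :: Y)).IsChain A := by
    rw [List.isChain_append]
    refine ⟨?_, hc3, ?_⟩
    · rw [List.isChain_append]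
      refine ⟨hc1, hZc, ?_⟩
      intro x hx y hy
      rw [hZh] at hy
      simp only [List.getLast?_concat, Option.mem_def, Option.some.injEq] at hx hy
      rw [← hx, ← hy]
      exact hs _ _ hA
    · intro x hx y hy
      have hZn : Z ≠ [] := by
        rintro rfl
        simp at hZh
      rw [List.getLast?_append_of_ne_nil _ hZn, hZl] at hx
      simp only [Option.mem_def, Option.some.injEq, List.head?_cons] at hx hy
      rw [← hx, ← hy]
      exact hA'
  have h3 := h.2.2 {(X ++ [w]) ++ Z ++ (w' :: Y)} (by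
    intro l hl
    rw [Multiset.mem_singleton] at hl
    rw [hl]
    exact ⟨by simp, h1⟩) (by
    have e1 : X ++ w :: w' :: Y = (X ++ [w]) ++ (w' :: Y) := by simp
    rw [x1_vs1, x1_vs2, e1, ← hZ]
    simp only [← Multiset.coe_add]
    abel)
  simp at h3

end H80Q
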