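import Pool.Agent.Lib.H80Q.Z1
import Pool.Agent.Lib.H56Z.X0

/-!
# H80Q, file Z2: the 4/5 theorem for the output of Theorem F
-/

set_option autoImplicit false

namespace H80Q

open Finset

variable {V : Type*} [Fintype V] [DecidableEq V]

private theorem z2_fh {G : Finset (Sym2 V)} {y : Sym2 V → ℝ} (h : H63F.FracHam G y) (hV : 3 ≤ Fintype.card V) :
    FH (fun u v : V => s(u, v) ∈ G) (fun u v => y s(u, v)) := by
  have hc : ∀ S : Finset V, H63F.cutw y S = ∑ a ∈ S, ∑ b ∈ univ \ S, y s(a, b) := fun S => H56Z.cutw_pairs y S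
  refine ⟨?_, ?_, ?_, ?_, ?_, ?_, ?_, hV⟩
  · intro u v huv
    rw [Sym2.eq_swap]
    exact huv
  · exact fun v => h.loop v
  · exact fun u v => h.nonneg _
  · intro u v
    rw [Sym2.eq_swap]
  · exact fun u v huv => h.supp _ huv
  · intro v
    have h1 := h.vert v
    rw [hc, sum_singleton] at h1
    have h2 : ∑ w, y s(v, w) = ∑ b ∈ univ \ {v}, y s(v, b) + ∑ b ∈ ({v} : Finset V), y s(v, b) :=
      (sum_sdiff (subset_univ _)).symm
    rw [h2, h1, sum_singleton, h.supp _ (h.loop v), add_zero]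
  · intro S hS hS'
    rw [← hc]
    exact h.cut S hS hS'

/-- The edge set `G` of a fractional Hamiltonian cycle: the `n` vertices can be ordered such that at least
`4 (n - 1) / 5` of the pairs of consecutive vertices are edges of `G`. -/
theorem four_fifths {G : Finset (Sym2 V)} {y : Sym2 V → ℝ} (h : H63F.FracHam G y) (hV : 3 ≤ Fintype.card V) :
    ∃ l : List V, l.Nodup ∧ (∀ v, v ∈ l) ∧
      4 * (Fintype.card V - 1) ≤ 5 * ((l.zip l.tail).filter (fun p => s(p.1, p.2) ∈ G)).length := by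
  obtain ⟨L, h1, h2, h3⟩ := main (z2_fh h hV)
  obtain ⟨l, h4, h5, h6⟩ := glue (A := fun u v : V => s(u, v) ∈ G) h1 h2
  refine ⟨l, h4, h5, ?_⟩
  rcases h3 with h3 | h3 <;> omega

end H80Q
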